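import Mathlib

set_option autoImplicit false
open Pointwise

namespace Pool.Agent.TH96.QP

variable {G : Type} [Group G]

/-- word length with respect to a set -/
noncomputable def wl (S : Set G) (g : G) : ℕ := sInf {n : ℕ | g ∈ (S ∪ S⁻¹) ^ n}

theorem exists_pow_mem (S : Set G) (hS : Subgroup.closure S = ⊤) (g : G) :
    ∃ n : ℕ, g ∈ (S ∪ S⁻¹) ^ n := by
  have hg : g ∈ Subgroup.closure S := by rw [hS]; trivial
  induction hg using Subgroup.closure_induction with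
  | mem x hx => exact ⟨1, by rw [pow_one]; exact Or.inl hx⟩
  | one => exact ⟨0, by simp⟩
  | mul x y _ _ hx hy =>
    obtain ⟨n, hn⟩ := hx
    obtain ⟨m, hm⟩ := hy
    exact ⟨n + m, by rw [pow_add]; exact Set.mul_mem_mul hn hm⟩
  | inv x _ hx =>
    obtain ⟨n, hn⟩ := hx
    refine ⟨n, ?_⟩
    have h1 : (S ∪ S⁻¹)⁻¹ = S ∪ S⁻¹ := by
      rw [Set.union_inv, inv_inv, Set.union_comm]
    have h2 : x⁻¹ ∈ ((S ∪ S⁻¹) ^ n)⁻¹ := Set.inv_mem_inv.mpr hn
    rwa [← inv_pow, h1] at h2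

theorem mem_pow_wl (S : Set G) (hS : Subgroup.closure S = ⊤) (g : G) :
    g ∈ (S ∪ S⁻¹) ^ (wl S g) :=
  Nat.sInf_mem (s := {n : ℕ | g ∈ (S ∪ S⁻¹) ^ n}) (exists_pow_mem S hS g)

theorem wl_le (S : Set G) (g : G) (n : ℕ) (h : g ∈ (S ∪ S⁻¹) ^ n) : wl S g ≤ n :=
  Nat.sInf_le h

theorem wl_one (S : Set G) : wl S (1 : G) = 0 := by
  have := wl_le S 1 0 (by simp)
  omega

theorem wl_mul (S : Set G) (hS : Subgroup.closure S = ⊤) (g h : G) :
    wl S (g * h) ≤ wl S g + wl S h := by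
  apply wl_le
  rw [pow_add]
  exact Set.mul_mem_mul (mem_pow_wl S hS g) (mem_pow_wl S hS h)

theorem wl_inv_le (S : Set G) (hS : Subgroup.closure S = ⊤) (g : G) :
    wl S g⁻¹ ≤ wl S g := by
  apply wl_le
  have h1 : (S ∪ S⁻¹)⁻¹ = S ∪ S⁻¹ := by
    rw [Set.union_inv, inv_inv, Set.union_comm]
  have h2 : g⁻¹ ∈ ((S ∪ S⁻¹) ^ (wl S g))⁻¹ := Set.inv_mem_inv.mpr (mem_pow_wl S hS g)
  rwa [← inv_pow, h1] at h2

theorem wl_inv (S : Set G) (hS : Subgroup.closure S = ⊤) (g : G) :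
    wl S g⁻¹ = wl S g := by
  apply le_antisymm (wl_inv_le S hS g)
  have := wl_inv_le S hS g⁻¹
  rwa [inv_inv] at this

theorem wl_mem (S : Set G) (g : G) (h : g ∈ S) : wl S g ≤ 1 :=
  wl_le S g 1 (by rw [pow_one]; exact Or.inl h)

/-- A function that increases by at most one along each letter is bounded by the word length. -/
theorem le_wl (S : Set G) (hS : Subgroup.closure S = ⊤) (f : G → ℤ)
    (hf : ∀ g : G, ∀ x ∈ S ∪ S⁻¹, f (g * x) ≤ f g + 1) (g : G) :
    f g ≤ f 1 + wl S g := by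
  have key : ∀ n : ℕ, ∀ g ∈ (S ∪ S⁻¹) ^ n, f g ≤ f 1 + n := by
    intro n
    induction n with
    | zero =>
      intro g hg
      have : g = 1 := by simpa using hg
      subst this; simp
    | succ n ih =>
      intro g hg
      rw [pow_succ] at hg
      obtain ⟨a, ha, x, hx, rfl⟩ := Set.mem_mul.mp hg
      have h1 := ih a ha
      have h2 := hf a x hx
      push_cast
      linarith
  exact key _ g (mem_pow_wl S hS g)

/-- abstract length functions -/
structure IsLen (l : G → ℕ) : Prop where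
  mul : ∀ g h, l (g * h) ≤ l g + l h
  inv : ∀ g, l g⁻¹ = l g

theorem isLen_wl (S : Set G) (hS : Subgroup.closure S = ⊤) : IsLen (wl S) :=
  ⟨wl_mul S hS, wl_inv S hS⟩

theorem IsLen.one_bound {l : G → ℕ} (_h : IsLen l) : ∃ M, l 1 ≤ M := ⟨_, le_rfl⟩

theorem wl_pow (S : Set G) (hS : Subgroup.closure S = ⊤) (g : G) (n : ℕ) :
    wl S (g ^ n) ≤ n * wl S g := by
  induction n with
  | zero => simp [wl_one]
  | succ n ih =>
    rw [pow_succ]
    have := wl_mul S hS (g ^ n) g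
    nlinarith

theorem wl_zpow (S : Set G) (hS : Subgroup.closure S = ⊤) (g : G) (n : ℤ) :
    wl S (g ^ n) ≤ n.natAbs * wl S g := by
  rcases Int.natAbs_eq n with h | h
  · rw [h, zpow_natCast, Int.natAbs_natCast]
    exact wl_pow S hS g _
  · rw [h, zpow_neg, zpow_natCast, wl_inv S hS, Int.natAbs_neg, Int.natAbs_natCast]
    exact wl_pow S hS g _

end Pool.Agent.TH96.QP
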