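import Mathlib
import Pool.Agent.TH96.QPLen

set_option autoImplicit false

namespace Pool.Agent.TH96.QP

abbrev Lam := ℝ →₀ ℚ

/-- basis vectors -/
noncomputable abbrev ee (c : ℝ) : Lam := Finsupp.single c (1 : ℚ)

/-- all coordinates have 2-adic absolute value at most `2 ^ n` -/
def InL (n : ℤ) (x : Lam) : Prop := ∀ c, padicNorm 2 (x c) ≤ (2 : ℚ) ^ n

theorem InL.zero (n : ℤ) : InL n 0 := fun c => by
  simp only [Finsupp.coe_zero, Pi.zero_apply, padicNorm.zero]; positivity

theorem InL.add {n : ℤ} {x y : Lam} (hx : InL n x) (hy : InL n y) : InL n (x + y) := fun c => by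
  rw [Finsupp.add_apply]
  exact padicNorm.nonarchimedean.trans (max_le (hx c) (hy c))

theorem InL.neg {n : ℤ} {x : Lam} (hx : InL n x) : InL n (-x) := fun c => by
  rw [Finsupp.neg_apply, padicNorm.neg]
  exact hx c

theorem InL.sub {n : ℤ} {x y : Lam} (hx : InL n x) (hy : InL n y) : InL n (x - y) := by
  rw [sub_eq_add_neg]; exact hx.add hy.neg

theorem InL.mono {n m : ℤ} {x : Lam} (hx : InL n x) (h : n ≤ m) : InL m x := fun c =>
  (hx c).trans (zpow_le_zpow_right₀ (by norm_num) h)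

theorem norm_two_zpow (k : ℤ) : padicNorm 2 ((2 : ℚ) ^ k) = (2 : ℚ) ^ (-k) := by
  have h2 : padicNorm 2 (2 : ℚ) = (2 : ℚ)⁻¹ := by
    have := padicNorm.padicNorm_p (p := 2) (by norm_num)
    simpa using this
  have key : ∀ n : ℕ, padicNorm 2 ((2 : ℚ) ^ n) = ((2 : ℚ)⁻¹) ^ n := by
    intro n
    induction n with
    | zero => simp
    | succ n ih => rw [pow_succ, padicNorm.mul, ih, h2, pow_succ]
  rcases Int.natAbs_eq k with h | h
  · rw [h, zpow_natCast, key, zpow_neg, zpow_natCast, inv_pow]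
  · rw [h, zpow_neg, neg_neg, zpow_natCast]
    have h3 : padicNorm 2 (((2 : ℚ) ^ k.natAbs)⁻¹) = (padicNorm 2 ((2 : ℚ) ^ k.natAbs))⁻¹ := by
      rw [← one_div, padicNorm.div, padicNorm.one, one_div]
    rw [h3, key, inv_pow, inv_inv]

theorem InL.smul_zpow {n : ℤ} {x : Lam} (hx : InL n x) (k : ℤ) :
    InL (n + k) ((2 : ℚ) ^ (-k) • x) := fun c => by
  rw [Finsupp.smul_apply, smul_eq_mul, padicNorm.mul, norm_two_zpow, neg_neg,
    zpow_add₀ (by norm_num), mul_comm]
  exact mul_le_mul_of_nonneg_right (hx c) (by positivity)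

theorem InL.smul {n m : ℤ} {x : Lam} (hx : InL n x) (a : ℚ) (ha : padicNorm 2 a ≤ (2 : ℚ) ^ m) :
    InL (m + n) (a • x) := fun c => by
  rw [Finsupp.smul_apply, smul_eq_mul, padicNorm.mul, zpow_add₀ (by norm_num)]
  exact mul_le_mul ha (hx c) (padicNorm.nonneg _) (by positivity)

theorem InL.ee (c : ℝ) : InL 0 (ee c) := fun d => by
  rw [Finsupp.single_apply]
  split_ifs <;> simp

theorem InL.single (c : ℝ) (a : ℚ) (n : ℤ) (ha : padicNorm 2 a ≤ (2 : ℚ) ^ n) :
    InL n (Finsupp.single c a) := fun d => by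
  rw [Finsupp.single_apply]
  split_ifs
  · exact ha
  · rw [padicNorm.zero]; positivity

theorem exists_pow_ge (a : ℚ) : ∃ n : ℕ, padicNorm 2 a ≤ (2 : ℚ) ^ n := by
  obtain ⟨n, hn⟩ := pow_unbounded_of_one_lt (padicNorm 2 a) (by norm_num : (1 : ℚ) < 2)
  exact ⟨n, hn.le⟩

theorem exists_InL (x : Lam) : ∃ n : ℕ, InL n x := by
  induction x using Finsupp.induction_linear with
  | zero => exact ⟨0, InL.zero _⟩
  | add x y hx hy =>
    obtain ⟨n, hn⟩ := hx
    obtain ⟨m, hm⟩ := hy
    exact ⟨max n m, (hn.mono (by simp)).add (hm.mono (by simp))⟩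
  | single c a =>
    obtain ⟨n, hn⟩ := exists_pow_ge a
    exact ⟨n, InL.single c a n (by exact_mod_cast hn)⟩

theorem InL.sum {ι : Type*} (s : Finset ι) (f : ι → Lam) (n : ℤ) (h : ∀ i ∈ s, InL n (f i)) :
    InL n (∑ i ∈ s, f i) := by
  classical
  induction s using Finset.induction_on with
  | empty => simpa using InL.zero n
  | insert a s ha ih =>
    rw [Finset.sum_insert ha]
    exact (h a (Finset.mem_insert_self _ _)).add
      (ih fun i hi => h i (Finset.mem_insert_of_mem hi))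

/-- linear automorphisms which preserve the unit ball and fix all but countably many basis
vectors -/
def OO : Subgroup (Lam ≃ₗ[ℚ] Lam) where
  carrier := {U | (∀ x, InL 0 x → InL 0 (U x)) ∧ (∀ x, InL 0 x → InL 0 (U⁻¹ x)) ∧
    {c | U (ee c) ≠ ee c}.Countable}
  one_mem' := ⟨fun _ h => h, fun _ h => h, by
    have : {c | (1 : Lam ≃ₗ[ℚ] Lam) (ee c) ≠ ee c} = ∅ := by ext c; simp
    rw [this]; exact Set.countable_empty⟩
  mul_mem' := by
    rintro U V ⟨h1, h2, h3⟩ ⟨g1, g2, g3⟩
    refine ⟨fun x hx => h1 _ (g1 _ hx), fun x hx => ?_, ?_⟩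
    · rw [mul_inv_rev]; exact g2 _ (h2 _ hx)
    · refine (h3.union g3).mono ?_
      intro c hc
      by_contra hcon
      rw [Set.mem_union, not_or, Set.mem_ofPred_eq, Set.mem_ofPred_eq, not_not, not_not] at hcon
      apply hc
      show U (V (ee c)) = ee c
      rw [hcon.2, hcon.1]
  inv_mem' := by
    rintro U ⟨h1, h2, h3⟩
    refine ⟨h2, by rw [inv_inv]; exact h1, ?_⟩
    convert h3 using 1
    ext c
    rw [Set.mem_ofPred_eq, Set.mem_ofPred_eq, not_iff_not]
    constructor
    · intro h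
      conv_lhs => rw [← h]
      show (U * U⁻¹) (ee c) = ee c
      rw [mul_inv_cancel]; rfl
    · intro h
      conv_lhs => rw [← h]
      show (U⁻¹ * U) (ee c) = ee c
      rw [inv_mul_cancel]; rfl

theorem OO.inL {U : Lam ≃ₗ[ℚ] Lam} (hU : U ∈ OO) {n : ℤ} {x : Lam} (hx : InL n x) :
    InL n (U x) := by
  have h1 := hx.smul_zpow (-n)
  rw [add_neg_cancel, neg_neg] at h1
  have h2 := (hU.1 _ h1).smul_zpow n
  rw [map_smul, smul_smul, ← zpow_add₀ (by norm_num), neg_add_cancel, zpow_zero, one_smul,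
    zero_add] at h2
  exact h2

/-- transvections -/
noncomputable def tvl (c : ℝ) (u : Lam) : Lam →ₗ[ℚ] Lam where
  toFun x := x + x c • u
  map_add' x y := by rw [Finsupp.add_apply, add_smul]; abel
  map_smul' a x := by
    rw [Finsupp.smul_apply, smul_eq_mul, RingHom.id_apply, smul_add, smul_smul]

noncomputable def tv (c : ℝ) (u : Lam) (hu : u c = 0) : Lam ≃ₗ[ℚ] Lam :=
  LinearEquiv.ofLinearMap (tvl c u) (tvl c (-u))
    (by ext x : 1; apply LinearMap.ext; intro y
        simp [tvl, hu])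
    (by ext x : 1; apply LinearMap.ext; intro y
        simp [tvl, hu])

theorem tv_apply (c : ℝ) (u : Lam) (hu : u c = 0) (x : Lam) : tv c u hu x = x + x c • u := rfl

theorem tv_inv_apply (c : ℝ) (u : Lam) (hu : u c = 0) (x : Lam) :
    (tv c u hu)⁻¹ x = x + x c • (-u) := rfl

theorem tv_mem (c : ℝ) (u : Lam) (hu : u c = 0) (h : InL 0 u) : tv c u hu ∈ OO := by
  refine ⟨fun x hx => ?_, fun x hx => ?_, ?_⟩
  · rw [tv_apply]
    exact hx.add (by simpa using h.smul (m := 0) (x c) (hx c))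
  · rw [tv_inv_apply]
    exact hx.add (by simpa using h.neg.smul (m := 0) (x c) (hx c))
  · refine (Set.countable_singleton c).mono ?_
    intro d hd
    by_contra hne
    apply hd
    have : (ee d) c = 0 := Finsupp.single_eq_of_ne (fun h => hne (by rw [h]; rfl))
    rw [tv_apply, this, zero_smul, add_zero]

/-- transitivity on vectors of the same size -/
theorem orbit (n : ℤ) (b z : Lam) (c d : ℝ) (hcd : d ≠ c) (hb : InL n b) (hz : InL n z)
    (hbc : padicNorm 2 (b c) = (2 : ℚ) ^ n) (hzd : padicNorm 2 (z d) = (2 : ℚ) ^ n) :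
    ∃ U ∈ OO, U b = z := by
  have hbc0 : b c ≠ 0 := by
    intro h; rw [h, padicNorm.zero] at hbc
    have : (0 : ℚ) < 2 ^ n := by positivity
    linarith
  have hzd0 : z d ≠ 0 := by
    intro h; rw [h, padicNorm.zero] at hzd
    have : (0 : ℚ) < 2 ^ n := by positivity
    linarith
  set u : Lam := Finsupp.single d ((z d - b d) / b c) with hu
  have huc : u c = 0 := by rw [hu, Finsupp.single_eq_of_ne hcd.symm]
  have hu0 : InL 0 u := by
    apply InL.single
    rw [padicNorm.div, hbc, zpow_zero, div_le_one (by positivity)]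
    exact padicNorm.sub.trans (max_le (hz d) (hb d))
  set v : Lam := tv c u huc b with hv
  have hvL : InL n v := OO.inL (tv_mem c u huc hu0) hb
  have hvd : v d = z d := by
    rw [hv, tv_apply, Finsupp.add_apply, Finsupp.smul_apply, hu, Finsupp.single_eq_same,
      smul_eq_mul]
    field_simp
    ring
  set w : Lam := (z d)⁻¹ • (z - v) with hw
  have hwd : w d = 0 := by
    rw [hw, Finsupp.smul_apply, Finsupp.sub_apply, hvd, sub_self, smul_zero]
  have hw0 : InL 0 w := by
    have h1 : padicNorm 2 (z d)⁻¹ ≤ (2 : ℚ) ^ (-n) := by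
      rw [← one_div, padicNorm.div, padicNorm.one, hzd, one_div, zpow_neg]
    have := (hz.sub hvL).smul (z d)⁻¹ h1
    rwa [neg_add_cancel] at this
  refine ⟨tv d w hwd * tv c u huc, OO.mul_mem (tv_mem d w hwd hw0) (tv_mem c u huc hu0), ?_⟩
  show tv d w hwd (tv c u huc b) = z
  rw [← hv, tv_apply, hvd, hw, smul_smul, mul_inv_cancel₀ hzd0, one_smul]
  abel

/-- differences of two vectors of an orbit cover the ball -/
theorem ball_cover (n : ℤ) (b w : Lam) (hb : InL n b) (hb' : ¬ InL (n - 1) b) (hw : InL n w) :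
    ∃ U ∈ OO, ∃ V ∈ OO, w = U b - V b := by
  unfold InL at hb'
  push Not at hb'
  obtain ⟨c, hc⟩ := hb'
  have hbc0 : b c ≠ 0 := by
    intro h; rw [h, padicNorm.zero] at hc
    have : (0 : ℚ) < 2 ^ (n - 1) := by positivity
    linarith
  have hbc : padicNorm 2 (b c) = (2 : ℚ) ^ n := by
    obtain ⟨z, hz⟩ := padicNorm.values_discrete (p := 2) hbc0
    have h1 := hb c
    rw [hz] at h1 hc ⊢
    push_cast at h1 hc ⊢
    have h2 : -z ≤ n := (zpow_le_zpow_iff_right₀ (by norm_num)).mp h1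
    have h3 : n - 1 < -z := (zpow_lt_zpow_iff_right₀ (by norm_num)).mp hc
    congr 1
    omega
  have hd : c + 1 ≠ c := by simp
  have hd' : c + 2 ≠ c := by simp
  have hdd' : c + 1 ≠ c + 2 := by
    intro h; linarith
  set z' : Lam := Finsupp.single (c + 2) (b c) + Finsupp.single (c + 1) (b c - w (c + 1)) with hz'
  have hz'L : InL n z' := by
    apply InL.add
    · exact InL.single _ _ _ hbc.le
    · exact InL.single _ _ _ (padicNorm.sub.trans (max_le hbc.le (hw _)))
  have hz'd' : z' (c + 2) = b c := by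
    rw [hz', Finsupp.add_apply, Finsupp.single_eq_same, Finsupp.single_eq_of_ne hdd'.symm,
      add_zero]
  have hz'd : z' (c + 1) = b c - w (c + 1) := by
    rw [hz', Finsupp.add_apply, Finsupp.single_eq_same, Finsupp.single_eq_of_ne hdd',
      zero_add]
  obtain ⟨U, hU, hUb⟩ := orbit n b (w + z') c (c + 1) hd hb (hw.add hz'L) hbc (by
    rw [Finsupp.add_apply, hz'd, add_sub_cancel, hbc])
  obtain ⟨V, hV, hVb⟩ := orbit n b z' c (c + 2) hd' hb hz'L hbc (by rw [hz'd', hbc])
  exact ⟨U, hU, V, hV, by rw [hUb, hVb]; abel⟩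

end Pool.Agent.TH96.QP
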