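import Mathlib
import Pool.Agent.TH96.QPO

set_option autoImplicit false

namespace Pool.Agent.TH96.QP

section Glue

variable (E : Set ℝ) (f : ℤ × ℤ × E ↪ ℝ) (hf : ∀ x : E, f (0, 0, x) = x)

/-- vectors supported in `E` -/
noncomputable abbrev VE (E : Set ℝ) : Submodule ℚ Lam := Finsupp.supported ℚ ℚ E

open Classical in
/-- moving the coordinates in `E` to the copy with index `(i, j)` -/
noncomputable def gg (p : ℤ × ℤ) (c : ℝ) : ℝ := if h : c ∈ E then f (p.1, p.2, ⟨c, h⟩) else c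

noncomputable def JJ (p : ℤ × ℤ) : Lam →ₗ[ℚ] Lam := Finsupp.lmapDomain ℚ ℚ (gg E f p)

theorem JJ_ee (p : ℤ × ℤ) (x : E) : JJ E f p (ee x) = ee (f (p.1, p.2, x)) := by
  unfold JJ
  rw [Finsupp.lmapDomain_apply, Finsupp.mapDomain_single]
  unfold gg
  rw [dif_pos x.2]

theorem JJ_zero (hf : ∀ x : E, f (0, 0, x) = x) (v : Lam) : JJ E f (0, 0) v = v := by
  have : gg E f (0, 0) = id := by
    funext c
    unfold gg
    split_ifs with h
    · exact hf ⟨c, h⟩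
    · rfl
  unfold JJ
  rw [this, Finsupp.lmapDomain_apply, Finsupp.mapDomain_id]

theorem eqOn_VE (A B : Lam →ₗ[ℚ] Lam) (h : ∀ x : E, A (ee x) = B (ee x)) (v : Lam)
    (hv : v ∈ VE E) : A v = B v := by
  rw [VE, Finsupp.supported_eq_span_single] at hv
  refine LinearMap.eqOn_span (f := A) (g := B) ?_ hv
  rintro _ ⟨c, hc, rfl⟩
  exact h ⟨c, hc⟩

theorem eq_of_ee (A B : Lam →ₗ[ℚ] Lam) (h : ∀ c, A (ee c) = B (ee c)) : A = B := by
  apply Finsupp.lhom_ext'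
  intro c
  apply LinearMap.ext_ring
  exact h c

/-- the block diagonal map -/
noncomputable def gl (a : ℤ × ℤ → (Lam ≃ₗ[ℚ] Lam)) : Lam →ₗ[ℚ] Lam :=
  Finsupp.linearCombination ℚ (Function.extend f
    (fun x : ℤ × ℤ × E => JJ E f (x.1, x.2.1) (a (x.1, x.2.1) (ee x.2.2))) (fun c => ee c))

theorem gl_in (a : ℤ × ℤ → (Lam ≃ₗ[ℚ] Lam)) (p : ℤ × ℤ) (x : E) :
    gl E f a (ee (f (p.1, p.2, x))) = JJ E f p (a p (ee x)) := by
  unfold gl
  rw [Finsupp.linearCombination_single, one_smul, f.injective.extend_apply]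

theorem gl_out (a : ℤ × ℤ → (Lam ≃ₗ[ℚ] Lam)) (c : ℝ) (hc : c ∉ Set.range f) :
    gl E f a (ee c) = ee c := by
  unfold gl
  rw [Finsupp.linearCombination_single, one_smul, Function.extend_apply']
  rintro ⟨x, hx⟩
  exact hc ⟨x, hx⟩

theorem gl_JJ (a : ℤ × ℤ → (Lam ≃ₗ[ℚ] Lam)) (p : ℤ × ℤ) (v : Lam) (hv : v ∈ VE E) :
    gl E f a (JJ E f p v) = JJ E f p (a p v) := by
  have := eqOn_VE E ((gl E f a).comp (JJ E f p)) ((JJ E f p).comp (a p).toLinearMap) ?_ v hv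
  · exact this
  · intro x
    rw [LinearMap.comp_apply, LinearMap.comp_apply, JJ_ee]
    exact gl_in E f a p x

/-- cases on whether a coordinate is in one of the copies -/
theorem cases_f (c : ℝ) : (∃ p : ℤ × ℤ, ∃ x : E, c = f (p.1, p.2, x)) ∨ c ∉ Set.range f := by
  by_cases h : c ∈ Set.range f
  · obtain ⟨⟨i, j, x⟩, rfl⟩ := h
    exact Or.inl ⟨(i, j), x, rfl⟩
  · exact Or.inr h

theorem gl_mul (a b : ℤ × ℤ → (Lam ≃ₗ[ℚ] Lam)) (hb : ∀ p, ∀ v ∈ VE E, b p v ∈ VE E) :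
    (gl E f a).comp (gl E f b) = gl E f (a * b) := by
  apply eq_of_ee
  intro c
  rcases cases_f E f c with ⟨p, x, rfl⟩ | hc
  · rw [LinearMap.comp_apply, gl_in, gl_in, gl_JJ]
    · rfl
    · exact hb p _ (Finsupp.single_mem_supported ℚ _ x.2)
  · rw [LinearMap.comp_apply, gl_out E f b c hc, gl_out E f a c hc, gl_out E f _ c hc]

theorem gl_one : gl E f 1 = LinearMap.id := by
  apply eq_of_ee
  intro c
  rcases cases_f E f c with ⟨p, x, rfl⟩ | hc
  · rw [gl_in]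
    show JJ E f p (ee x) = _
    rw [JJ_ee]; rfl
  · rw [gl_out E f _ c hc]; rfl

/-- automorphisms which preserve the span of `E` -/
def StE (E : Set ℝ) : Subgroup (Lam ≃ₗ[ℚ] Lam) where
  carrier := {U | (∀ v ∈ VE E, U v ∈ VE E) ∧ (∀ v ∈ VE E, U⁻¹ v ∈ VE E)}
  one_mem' := ⟨fun _ h => h, fun _ h => h⟩
  mul_mem' := by
    rintro U V ⟨h1, h2⟩ ⟨g1, g2⟩
    exact ⟨fun v hv => h1 _ (g1 _ hv), fun v hv => by rw [mul_inv_rev]; exact g2 _ (h2 _ hv)⟩
  inv_mem' := by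
    rintro U ⟨h1, h2⟩
    exact ⟨h2, by rw [inv_inv]; exact h1⟩

/-- the block diagonal automorphism -/
noncomputable def Ph (a : ℤ × ℤ → StE E) : Lam ≃ₗ[ℚ] Lam :=
  LinearEquiv.ofLinearMap (gl E f (fun p => (a p : Lam ≃ₗ[ℚ] Lam)))
    (gl E f (fun p => ((a p)⁻¹ : StE E)))
    (by
      rw [gl_mul E f _ _ (fun p v hv => ((a p)⁻¹).2.1 v hv), ← gl_one E f]
      congr 1
      funext p
      show (a p : Lam ≃ₗ[ℚ] Lam) * ((a p)⁻¹ : StE E) = 1
      rw [← Subgroup.coe_mul, mul_inv_cancel]; rfl)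
    (by
      rw [gl_mul E f _ _ (fun p v hv => (a p).2.1 v hv), ← gl_one E f]
      congr 1
      funext p
      show (((a p)⁻¹ : StE E) : Lam ≃ₗ[ℚ] Lam) * (a p) = 1
      rw [← Subgroup.coe_mul, inv_mul_cancel]; rfl)

theorem Ph_apply (a : ℤ × ℤ → StE E) (v : Lam) :
    Ph E f a v = gl E f (fun p => (a p : Lam ≃ₗ[ℚ] Lam)) v := rfl

theorem Ph_inv_apply (a : ℤ × ℤ → StE E) (v : Lam) :
    (Ph E f a)⁻¹ v = gl E f (fun p => ((a p)⁻¹ : StE E)) v := rfl

theorem equiv_ext_ee (A B : Lam ≃ₗ[ℚ] Lam) (h : ∀ c, A (ee c) = B (ee c)) : A = B := by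
  have := eq_of_ee A.toLinearMap B.toLinearMap h
  exact LinearEquiv.toLinearMap_injective this

theorem Ph_mul (a b : ℤ × ℤ → StE E) : Ph E f (a * b) = Ph E f a * Ph E f b := by
  apply equiv_ext_ee
  intro c
  rw [LinearEquiv.mul_apply, Ph_apply, Ph_apply, Ph_apply, ← LinearMap.comp_apply, gl_mul]
  · rfl
  · exact fun p v hv => (b p).2.1 v hv

noncomputable def PhHom : (ℤ × ℤ → StE E) →* (Lam ≃ₗ[ℚ] Lam) :=
  MonoidHom.mk' (Ph E f) (Ph_mul E f)

theorem PhHom_apply (a : ℤ × ℤ → StE E) (v : Lam) :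
    PhHom E f a v = gl E f (fun p => (a p : Lam ≃ₗ[ℚ] Lam)) v := rfl

/-- the permutation of the copies -/
def PP (E : Set ℝ) (p : Equiv.Perm (ℤ × ℤ)) : Equiv.Perm (ℤ × ℤ × E) :=
  (Equiv.prodAssoc ℤ ℤ E).symm.trans ((p.prodCongr (Equiv.refl E)).trans (Equiv.prodAssoc ℤ ℤ E))

theorem PP_apply (p : Equiv.Perm (ℤ × ℤ)) (q : ℤ × ℤ) (x : E) :
    PP E p (q.1, q.2, x) = ((p q).1, (p q).2, x) := rfl

noncomputable def BB (p : Equiv.Perm (ℤ × ℤ)) : Lam ≃ₗ[ℚ] Lam :=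
  Finsupp.domLCongr ((PP E p).viaEmbedding f)

theorem BB_in (p : Equiv.Perm (ℤ × ℤ)) (q : ℤ × ℤ) (x : E) :
    BB E f p (ee (f (q.1, q.2, x))) = ee (f ((p q).1, (p q).2, x)) := by
  unfold BB
  rw [Finsupp.domLCongr_single, Equiv.Perm.viaEmbedding_apply, PP_apply]

theorem BB_out (p : Equiv.Perm (ℤ × ℤ)) (c : ℝ) (hc : c ∉ Set.range f) :
    BB E f p (ee c) = ee c := by
  unfold BB
  rw [Finsupp.domLCongr_single, Equiv.Perm.viaEmbedding_apply_of_notMem _ _ _ hc]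

theorem BB_JJ (p : Equiv.Perm (ℤ × ℤ)) (q : ℤ × ℤ) (v : Lam) (hv : v ∈ VE E) :
    BB E f p (JJ E f q v) = JJ E f (p q) v := by
  have := eqOn_VE E ((BB E f p).toLinearMap.comp (JJ E f q)) (JJ E f (p q)) ?_ v hv
  · exact this
  · intro x
    rw [LinearMap.comp_apply, JJ_ee, JJ_ee]
    exact BB_in E f p q x

theorem BB_conj (p : Equiv.Perm (ℤ × ℤ)) (a : ℤ × ℤ → StE E) :
    BB E f p * PhHom E f a = PhHom E f (a ∘ p.symm) * BB E f p := by
  apply equiv_ext_ee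
  intro c
  rw [LinearEquiv.mul_apply, LinearEquiv.mul_apply, PhHom_apply, PhHom_apply]
  rcases cases_f E f c with ⟨q, x, rfl⟩ | hc
  · rw [gl_in, BB_in, gl_in, BB_JJ]
    · show _ = JJ E f (p q) ((a (p.symm (p q)) : Lam ≃ₗ[ℚ] Lam) (ee x))
      rw [Equiv.symm_apply_apply]
    · exact (a q).2.1 _ (Finsupp.single_mem_supported ℚ _ x.2)
  · rw [gl_out E f _ c hc, BB_out E f _ c hc, gl_out E f _ c hc]

theorem BB_inv (p : Equiv.Perm (ℤ × ℤ)) : (BB E f p)⁻¹ = BB E f p⁻¹ := by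
  rw [inv_eq_iff_mul_eq_one]
  apply equiv_ext_ee
  intro c
  show BB E f p (BB E f p⁻¹ (ee c)) = ee c
  rcases cases_f E f c with ⟨q, x, rfl⟩ | hc
  · rw [BB_in, BB_in]
    simp
  · rw [BB_out E f _ c hc, BB_out E f _ c hc]

theorem BB_mem_OO (hE : E.Countable) (p : Equiv.Perm (ℤ × ℤ)) : BB E f p ∈ OO := by
  have key : ∀ q : Equiv.Perm (ℤ × ℤ), ∀ x, InL 0 x → InL 0 (BB E f q x) := by
    intro q x hx c
    unfold BB
    rw [Finsupp.domLCongr_apply, Finsupp.domCongr_apply, Finsupp.equivMapDomain_apply]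
    exact hx _
  refine ⟨key p, fun x hx => by rw [BB_inv]; exact key _ x hx, ?_⟩
  have : Countable E := hE.to_subtype
  refine (Set.countable_range f).mono ?_
  intro c hc
  by_contra h
  exact hc (BB_out E f p c h)

theorem JJ_InL (q : ℤ × ℤ) (n : ℤ) (v : Lam) (hv : InL n v) : InL n (JJ E f q v) := by
  unfold JJ
  rw [Finsupp.lmapDomain_apply, Finsupp.mapDomain, Finsupp.sum]
  apply InL.sum
  intro c _
  exact InL.single _ _ _ (hv c)

theorem gl_InL (a : ℤ × ℤ → (Lam ≃ₗ[ℚ] Lam)) (ha : ∀ p, a p ∈ OO) (x : Lam) (hx : InL 0 x) :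
    InL 0 (gl E f a x) := by
  unfold gl
  rw [Finsupp.linearCombination_apply, Finsupp.sum]
  apply InL.sum
  intro c _
  have h1 := hx c
  refine (zero_add (0 : ℤ)) ▸ InL.smul (m := 0) ?_ (x c) h1
  rcases cases_f E f c with ⟨q, y, rfl⟩ | hc
  · rw [f.injective.extend_apply]
    have h2 : InL 0 (a (q.1, q.2) (ee y)) := (ha _).1 _ (InL.ee _)
    exact JJ_InL E f _ _ _ h2
  · rw [Function.extend_apply']
    · exact InL.ee c
    · rintro ⟨y, hy⟩
      exact hc ⟨y, hy⟩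

theorem Ph_mem_OO (hE : E.Countable) (a : ℤ × ℤ → StE E)
    (ha : ∀ p, (a p : Lam ≃ₗ[ℚ] Lam) ∈ OO) : PhHom E f a ∈ OO := by
  refine ⟨fun x hx => ?_, fun x hx => ?_, ?_⟩
  · rw [PhHom_apply]
    exact gl_InL E f _ ha x hx
  · rw [← map_inv, PhHom_apply]
    apply gl_InL E f _ _ x hx
    intro p
    show (((a p)⁻¹ : StE E) : Lam ≃ₗ[ℚ] Lam) ∈ OO
    rw [Subgroup.coe_inv]
    exact OO.inv_mem (ha p)
  · have : Countable E := hE.to_subtype
    refine (Set.countable_range f).mono ?_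
    intro c hc
    by_contra h
    apply hc
    rw [PhHom_apply, gl_out E f _ c h]

include hf in
theorem Ph_delta (U : StE E) (hU : ∀ c ∉ E, (U : Lam ≃ₗ[ℚ] Lam) (ee c) = ee c) :
    PhHom E f (fun p => if p = (0, 0) then U else 1) = (U : Lam ≃ₗ[ℚ] Lam) := by
  apply equiv_ext_ee
  intro c
  rw [PhHom_apply]
  rcases cases_f E f c with ⟨p, x, rfl⟩ | hc
  · rw [gl_in]
    by_cases hp : p = (0, 0)
    · rw [if_pos hp, hp, JJ_zero E f hf]
      show _ = (U : Lam ≃ₗ[ℚ] Lam) (ee (f (0, 0, x)))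
      rw [hf]
    · rw [if_neg hp]
      show JJ E f p (ee x) = _
      rw [JJ_ee, hU]
      intro hmem
      have h1 := hf ⟨_, hmem⟩
      have h2 := f.injective h1
      apply hp
      rw [Prod.mk.injEq, Prod.mk.injEq] at h2
      exact Prod.ext h2.1.symm h2.2.1.symm
  · rw [gl_out E f _ c hc, hU]
    intro hmem
    exact hc ⟨(0, 0, ⟨c, hmem⟩), hf ⟨c, hmem⟩⟩

end Glue

/-- shift of the row `0` -/
def p1 : Equiv.Perm (ℤ × ℤ) where
  toFun p := if p.2 = 0 then (p.1 + 1, p.2) else p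
  invFun p := if p.2 = 0 then (p.1 - 1, p.2) else p
  left_inv p := by
    obtain ⟨i, j⟩ := p
    by_cases h : j = 0 <;> simp [h]
  right_inv p := by
    obtain ⟨i, j⟩ := p
    by_cases h : j = 0 <;> simp [h]

/-- shift of the rows -/
def p2 : Equiv.Perm (ℤ × ℤ) where
  toFun p := (p.1, p.2 + 1)
  invFun p := (p.1, p.2 - 1)
  left_inv p := by simp
  right_inv p := by simp

theorem swindle_aux (E : Set ℝ) (hE : E.Countable) (f : ℤ × ℤ × E ↪ ℝ)
    (hf : ∀ x : E, f (0, 0, x) = x) (U : ℕ → StE E)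
    (hU1 : ∀ n, ∀ c ∉ E, (U n : Lam ≃ₗ[ℚ] Lam) (ee c) = ee c)
    (hU2 : ∀ n, (U n : Lam ≃ₗ[ℚ] Lam) ∈ OO) :
    ∃ B1 ∈ OO, ∃ B2 ∈ OO, ∃ F ∈ OO, ∀ n : ℕ, (U n : Lam ≃ₗ[ℚ] Lam) =
      (B2⁻¹ ^ n * F * B2 ^ n) * B1 * (B2⁻¹ ^ n * F * B2 ^ n)⁻¹ * B1⁻¹ := by
  set A : ℕ → ℤ × ℤ → StE E := fun n p =>
    if 0 ≤ p.1 ∧ 0 ≤ p.2 + n then U (p.2 + n).toNat else 1 with hA
  refine ⟨BB E f p1, BB_mem_OO E f hE _, BB E f p2, BB_mem_OO E f hE _, PhHom E f (A 0),
    Ph_mem_OO E f hE _ ?_, ?_⟩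
  · intro p
    rw [hA]
    dsimp only
    split_ifs
    · exact hU2 _
    · exact OO.one_mem
  · intro n
    have h1 : ∀ n : ℕ, (BB E f p2)⁻¹ ^ n * PhHom E f (A 0) = PhHom E f (A n) * (BB E f p2)⁻¹ ^ n := by
      intro n
      induction n with
      | zero => simp
      | succ n ih =>
        rw [pow_succ', mul_assoc, ih, ← mul_assoc, BB_inv, BB_conj, mul_assoc]
        congr 2
        funext p
        show A n ((p2⁻¹).symm p) = A (n + 1) p
        have : (p2⁻¹).symm p = (p.1, p.2 + 1) := rfl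
        rw [this, hA]
        dsimp only
        have e : p.2 + 1 + (n : ℤ) = p.2 + ((n + 1 : ℕ) : ℤ) := by push_cast; ring
        rw [e]
    rw [h1, mul_assoc (PhHom E f (A n)), inv_pow, inv_mul_cancel, mul_one, ← map_inv,
      mul_assoc (PhHom E f (A n)), BB_conj, ← mul_assoc, mul_assoc, mul_inv_cancel, mul_one,
      ← map_mul]
    rw [← Ph_delta E f hf (U n) (hU1 n)]
    congr 1
    funext p
    show _ = A n p * (A n (p1.symm p))⁻¹
    obtain ⟨i, j⟩ := p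
    by_cases hj : j = 0
    · have h3 : p1.symm (i, j) = (i - 1, j) := by
        show (if j = 0 then (i - 1, j) else (i, j)) = _
        rw [if_pos hj]
      rw [h3, hA]
      dsimp only
      subst hj
      rcases lt_trichotomy i 0 with hi | hi | hi
      · rw [if_neg (by rw [Prod.mk.injEq]; omega), if_neg (by omega), if_neg (by omega)]
        simp
      · subst hi
        rw [if_pos rfl, if_pos (by omega), if_neg (by omega)]
        simp
      · rw [if_neg (by rw [Prod.mk.injEq]; omega), if_pos (by omega), if_pos (by omega)]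
        simp
    · have h3 : p1.symm (i, j) = (i, j) := by
        show (if j = 0 then (i - 1, j) else (i, j)) = _
        rw [if_neg hj]
      rw [h3, mul_inv_cancel, if_neg (by rw [Prod.mk.injEq]; omega)]

/-- an embedding of countably many disjoint copies of a countable set of coordinates -/
theorem exists_copies (E : Set ℝ) (hE : E.Countable) :
    ∃ f : ℤ × ℤ × E ↪ ℝ, ∀ x : E, f (0, 0, x) = x := by
  have hcE : Countable E := hE.to_subtype
  have hinf : Infinite (Eᶜ : Set ℝ) := by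
    rw [Set.infinite_coe_iff]
    intro hfin
    have h1 : (Set.univ : Set ℝ).Countable := by
      rw [← Set.union_compl_self E]
      exact hE.union hfin.countable
    exact Cardinal.not_countable_real h1
  obtain ⟨a, ha⟩ := exists_injective_nat (ℤ × ℤ × E)
  let b : ℕ ↪ (Eᶜ : Set ℝ) := Infinite.natEmbedding _
  classical
  refine ⟨⟨fun p => if p.1 = 0 ∧ p.2.1 = 0 then (p.2.2 : ℝ) else (b (a p) : ℝ), ?_⟩, ?_⟩
  · intro p q hpq
    dsimp only at hpq
    by_cases hp : p.1 = 0 ∧ p.2.1 = 0 <;> by_cases hq : q.1 = 0 ∧ q.2.1 = 0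
    · rw [if_pos hp, if_pos hq] at hpq
      exact Prod.ext (by rw [hp.1, hq.1]) (Prod.ext (by rw [hp.2, hq.2]) (Subtype.ext hpq))
    · rw [if_pos hp, if_neg hq] at hpq
      exact absurd p.2.2.2 (by rw [hpq]; exact (b (a q)).2)
    · rw [if_neg hp, if_pos hq] at hpq
      exact absurd q.2.2.2 (by rw [← hpq]; exact (b (a p)).2)
    · rw [if_neg hp, if_neg hq] at hpq
      exact ha (b.injective (Subtype.ext hpq))
  · intro x
    have h0 : (0 : ℤ) = 0 ∧ (0 : ℤ) = 0 := ⟨rfl, rfl⟩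
    show (if (0 : ℤ) = 0 ∧ (0 : ℤ) = 0 then (x : ℝ) else (b (a (0, 0, x)) : ℝ)) = x
    rw [if_pos h0]

theorem swindle (U : ℕ → (Lam ≃ₗ[ℚ] Lam)) (hU : ∀ n, U n ∈ OO) :
    ∃ B1 ∈ OO, ∃ B2 ∈ OO, ∃ F ∈ OO, ∀ n : ℕ, U n =
      (B2⁻¹ ^ n * F * B2 ^ n) * B1 * (B2⁻¹ ^ n * F * B2 ^ n)⁻¹ * B1⁻¹ := by
  classical
  set S : ℕ → Set ℝ := fun n => {c | U n (ee c) ≠ ee c} with hS
  set E : Set ℝ := ⋃ n, (S n ∪ ⋃ c ∈ S n, (((U n (ee c)).support : Set ℝ) ∪
    (((U n)⁻¹ (ee c)).support : Set ℝ))) with hE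
  have hSc : ∀ n, (S n).Countable := fun n => (hU n).2.2
  have hEc : E.Countable := by
    rw [hE]
    apply Set.countable_iUnion
    intro n
    apply (hSc n).union
    apply (hSc n).biUnion
    intro c _
    exact (Finset.countable_toSet _).union (Finset.countable_toSet _)
  have hfix : ∀ n, ∀ c ∉ S n, U n (ee c) = ee c := by
    intro n c hc
    by_contra h
    exact hc h
  have hfix' : ∀ n, ∀ c ∉ S n, (U n)⁻¹ (ee c) = ee c := by
    intro n c hc
    have h1 := hfix n c hc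
    conv_lhs => rw [← h1]
    show ((U n)⁻¹ * U n) (ee c) = ee c
    rw [inv_mul_cancel]; rfl
  have hSE : ∀ n, ∀ c ∉ E, c ∉ S n := by
    intro n c hc h
    exact hc (Set.mem_iUnion.mpr ⟨n, Or.inl h⟩)
  have hpres : ∀ A : Lam ≃ₗ[ℚ] Lam, (∀ c ∈ E, A (ee c) ∈ VE E) → ∀ v ∈ VE E, A v ∈ VE E := by
    intro A hA v hv
    rw [VE, Finsupp.supported_eq_span_single] at hv
    induction hv using Submodule.span_induction with
    | mem x hx =>
      obtain ⟨c, hc, rfl⟩ := hx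
      exact hA c hc
    | zero => rw [map_zero]; exact Submodule.zero_mem _
    | add x y _ _ hx hy => rw [map_add]; exact Submodule.add_mem _ hx hy
    | smul a x _ hx => rw [map_smul]; exact Submodule.smul_mem _ _ hx
  have hSt : ∀ n, U n ∈ StE E := by
    intro n
    refine ⟨hpres _ ?_, hpres _ ?_⟩
    · intro c hc
      by_cases h : c ∈ S n
      · rw [VE, Finsupp.mem_supported]
        intro d hd
        exact Set.mem_iUnion.mpr ⟨n, Or.inr (Set.mem_biUnion h (Or.inl hd))⟩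
      · rw [hfix n c h]
        exact Finsupp.single_mem_supported ℚ _ hc
    · intro c hc
      by_cases h : c ∈ S n
      · rw [VE, Finsupp.mem_supported]
        intro d hd
        exact Set.mem_iUnion.mpr ⟨n, Or.inr (Set.mem_biUnion h (Or.inr hd))⟩
      · rw [hfix' n c h]
        exact Finsupp.single_mem_supported ℚ _ hc
  obtain ⟨f, hf⟩ := exists_copies E hEc
  exact swindle_aux E hEc f hf (fun n => ⟨U n, hSt n⟩) (fun n c hc => hfix n c (hSE n c hc)) hU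

end Pool.Agent.TH96.QP
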