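import Mathlib
import Pool.Agent.TH96.QPLen

set_option autoImplicit false
open Pointwise

namespace Pool.Agent.TH96.QP

/-- Gromov product at the identity -/
noncomputable def gpr {G : Type} [Group G] (S : Set G) (a b : G) : ℝ :=
  ((wl S a : ℝ) + (wl S b : ℝ) - (wl S (a⁻¹ * b) : ℝ)) / 2

def lox {G : Type} [Group G] (S : Set G) (g : G) : Prop :=
  ∃ c : ℝ, 0 < c ∧ ∀ n : ℕ, c * (n : ℝ) ≤ (wl S (g ^ n) : ℝ)

def sameEnd {G : Type} [Group G] (S : Set G) (a b : G) : Prop :=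
  ∀ K : ℝ, ∃ N : ℕ, ∀ n m : ℕ, N ≤ n → N ≤ m → K ≤ gpr S (a ^ n) (b ^ m)

def QP {G : Type} [Group G] (S : Set G) : Prop :=
  Subgroup.closure S = ⊤ ∧
    (∃ δ : ℝ, ∀ x y z : G, min (gpr S x y) (gpr S y z) - δ ≤ gpr S x z) ∧
    (∃ g h : G, lox S g ∧ lox S h ∧
      ¬ ((sameEnd S g h ∧ sameEnd S g⁻¹ h⁻¹) ∨
          (sameEnd S g h⁻¹ ∧ sameEnd S g⁻¹ h))) ∧
    (∀ g h : G, lox S g → lox S h →
      (sameEnd S g h ∨ sameEnd S g h⁻¹ ∨ sameEnd S g⁻¹ h ∨ sameEnd S g⁻¹ h⁻¹))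

/-- A group with a height function: abstract version of a vertex transitive group of automorphisms
of a tree which fixes an end. -/
structure HData (G : Type) [Group G] where
  pi : G → ℤ
  c : G → ℤ
  t : G
  u : G
  pi_mul : ∀ g h, pi (g * h) = pi g + pi h
  c_nonneg : ∀ g, 0 ≤ c g
  pi_le : ∀ g, pi g ≤ c g
  c_mul : ∀ g h, c (g * h) ≤ max (c g) (pi g + c h)
  c_inv : ∀ g, c g⁻¹ = c g - pi g
  c_one : c 1 = 0
  pi_t : pi t = 1
  c_t : c t = 1
  pi_u : pi u = 0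
  c_u : 0 < c u

namespace HData

variable {G : Type} [Group G] (D : HData G)

theorem pi_one : D.pi 1 = 0 := by
  have := D.pi_mul 1 1
  rw [mul_one] at this
  linarith

theorem pi_inv (g : G) : D.pi g⁻¹ = - D.pi g := by
  have := D.pi_mul g g⁻¹
  rw [mul_inv_cancel, D.pi_one] at this
  linarith

theorem pi_pow (g : G) (n : ℕ) : D.pi (g ^ n) = n * D.pi g := by
  induction n with
  | zero => simp [D.pi_one]
  | succ n ih => rw [pow_succ, D.pi_mul, ih]; push_cast; ring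

theorem pi_zpow (g : G) (n : ℤ) : D.pi (g ^ n) = n * D.pi g := by
  rcases Int.natAbs_eq n with h | h
  · rw [h, zpow_natCast, D.pi_pow]
  · rw [h, zpow_neg, zpow_natCast, D.pi_inv, D.pi_pow]; ring

theorem c_t_pow (n : ℕ) : D.c (D.t ^ n) = n := by
  have h2 : D.c (D.t ^ n) ≤ n := by
    induction n with
    | zero => simp [D.c_one]
    | succ n ih =>
      rw [pow_succ']
      have h := D.c_mul D.t (D.t ^ n)
      rw [D.c_t, D.pi_t] at h
      push_cast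
      omega
  have h1 := D.pi_le (D.t ^ n)
  rw [D.pi_pow, D.pi_t] at h1
  omega

theorem c_t_pow_inv (n : ℕ) : D.c (D.t ^ n)⁻¹ = 0 := by
  rw [D.c_inv, D.c_t_pow, D.pi_pow, D.pi_t]; ring

/-- the generating set: the vertex stabilizer and the translation -/
def X : Set G := {g | D.pi g = 0 ∧ D.c g = 0} ∪ {D.t}

/-- every element is a translation up, an element of the stabilizer, a translation down -/
theorem decomp (g : G) : ∃ n m : ℕ, (n : ℤ) = D.c g ∧ (m : ℤ) = D.c g - D.pi g ∧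
    ∃ h : G, D.pi h = 0 ∧ D.c h = 0 ∧ g = D.t ^ n * h * (D.t ^ m)⁻¹ := by
  obtain ⟨n, hn⟩ := Int.eq_ofNat_of_zero_le (D.c_nonneg g)
  obtain ⟨m, hm⟩ := Int.eq_ofNat_of_zero_le (sub_nonneg.mpr (D.pi_le g))
  refine ⟨n, m, hn.symm, hm.symm, (D.t ^ n)⁻¹ * g * D.t ^ m, ?_, ?_, by group⟩
  · rw [D.pi_mul, D.pi_mul, D.pi_inv, D.pi_pow, D.pi_pow, D.pi_t]
    omega
  · apply le_antisymm _ (D.c_nonneg _)
    have h1 := D.c_mul ((D.t ^ n)⁻¹ * g) (D.t ^ m)
    have h2 := D.c_mul (D.t ^ n)⁻¹ g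
    rw [D.c_t_pow_inv, D.pi_inv, D.pi_pow, D.pi_t] at h2
    rw [D.pi_mul, D.pi_inv, D.pi_pow, D.pi_t, D.c_t_pow] at h1
    omega

theorem closure_X : Subgroup.closure D.X = ⊤ := by
  rw [eq_top_iff]
  intro g _
  obtain ⟨n, m, -, -, h, h1, h2, rfl⟩ := D.decomp g
  have ht : D.t ∈ Subgroup.closure D.X := Subgroup.subset_closure (Or.inr rfl)
  have hh : h ∈ Subgroup.closure D.X := Subgroup.subset_closure (Or.inl ⟨h1, h2⟩)
  exact mul_mem (mul_mem (pow_mem ht n) hh) (inv_mem (pow_mem ht m))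

theorem wl_X_le (g : G) : (wl D.X g : ℤ) ≤ 2 * D.c g - D.pi g + 1 := by
  obtain ⟨n, m, hn, hm, h, h1, h2, hg⟩ := D.decomp g
  have ht : wl D.X D.t ≤ 1 := wl_mem _ _ (Or.inr rfl)
  have hh : wl D.X h ≤ 1 := wl_mem _ _ (Or.inl ⟨h1, h2⟩)
  have e1 := wl_mul D.X D.closure_X (D.t ^ n * h) (D.t ^ m)⁻¹
  have e2 := wl_mul D.X D.closure_X (D.t ^ n) h
  have e3 := wl_pow D.X D.closure_X D.t n
  have e4 := wl_pow D.X D.closure_X D.t m
  rw [wl_inv D.X D.closure_X, ← hg] at e1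
  have e5 : n * wl D.X D.t ≤ n := by nlinarith
  have e6 : m * wl D.X D.t ≤ m := by nlinarith
  omega

/-- tree distance between the base vertex and its image -/
theorem L_mul (g h : G) :
    2 * D.c (g * h) - D.pi (g * h) ≤ (2 * D.c g - D.pi g) + (2 * D.c h - D.pi h) := by
  have h1 := D.c_mul g h
  have h2 := D.pi_mul g h
  have h3 := D.c_nonneg h
  have h4 := D.pi_le g
  omega

theorem le_wl_X (g : G) : 2 * D.c g - D.pi g ≤ wl D.X g := by
  have := le_wl D.X D.closure_X (fun g => 2 * D.c g - D.pi g) ?_ g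
  · simp only [D.c_one, D.pi_one] at this
    linarith
  · intro g x hx
    have h0 := D.L_mul g x
    have h1 : 2 * D.c x - D.pi x ≤ 1 := by
      rcases hx with hx | hx
      · rcases hx with hx | hx
        · rw [hx.1, hx.2]; norm_num
        · rw [Set.mem_singleton_iff] at hx
          rw [hx, D.c_t, D.pi_t]; norm_num
      · rw [Set.mem_inv] at hx
        have e1 := D.c_inv x
        have e2 := D.pi_inv x
        rcases hx with hx | hx
        · have e3 := hx.1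
          have e4 := hx.2
          omega
        · rw [Set.mem_singleton_iff] at hx
          rw [hx, D.c_t] at e1
          rw [hx, D.pi_t] at e2
          omega
    linarith

/-- twice the Gromov product for the tree distance, halved -/
def gL (a b : G) : ℤ := D.c a + D.c b - D.c (a⁻¹ * b) - D.pi a

theorem gL_spec (a b : G) : 2 * D.gL a b = (2 * D.c a - D.pi a) + (2 * D.c b - D.pi b)
    - (2 * D.c (a⁻¹ * b) - D.pi (a⁻¹ * b)) := by
  unfold gL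
  rw [D.pi_mul, D.pi_inv]; ring

theorem gpr_ge (a b : G) : (D.gL a b : ℝ) - 1 ≤ gpr D.X a b := by
  unfold gpr
  have h1 := D.le_wl_X a
  have h2 := D.le_wl_X b
  have h3 := D.wl_X_le (a⁻¹ * b)
  have h4 := D.gL_spec a b
  have h5 : 2 * D.gL a b - 1 ≤ (wl D.X a : ℤ) + wl D.X b - wl D.X (a⁻¹ * b) := by omega
  have h6 : (2 * (D.gL a b : ℝ) - 1) ≤ (wl D.X a : ℝ) + wl D.X b - wl D.X (a⁻¹ * b) := by
    exact_mod_cast h5
  linarith

theorem gpr_le (a b : G) : gpr D.X a b ≤ (D.gL a b : ℝ) + 1 := by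
  unfold gpr
  have h1 := D.wl_X_le a
  have h2 := D.wl_X_le b
  have h3 := D.le_wl_X (a⁻¹ * b)
  have h4 := D.gL_spec a b
  have h5 : (wl D.X a : ℤ) + wl D.X b - wl D.X (a⁻¹ * b) ≤ 2 * D.gL a b + 2 := by omega
  have h6 : (wl D.X a : ℝ) + wl D.X b - wl D.X (a⁻¹ * b) ≤ 2 * (D.gL a b : ℝ) + 2 := by
    exact_mod_cast h5
  linarith

/-- the height of the confluence of two vertices -/
def conf (a b : G) : ℤ := D.pi a + D.c (a⁻¹ * b)

theorem conf_symm (a b : G) : D.conf a b = D.conf b a := by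
  unfold conf
  have h1 : b⁻¹ * a = (a⁻¹ * b)⁻¹ := by group
  rw [h1, D.c_inv, D.pi_mul, D.pi_inv]; ring

theorem conf_ultra (x y z : G) : D.conf x z ≤ max (D.conf x y) (D.conf y z) := by
  unfold conf
  have h1 : x⁻¹ * z = (x⁻¹ * y) * (y⁻¹ * z) := by group
  have h2 := D.c_mul (x⁻¹ * y) (y⁻¹ * z)
  rw [← h1, D.pi_mul, D.pi_inv] at h2
  omega

theorem conf_one (x : G) : D.conf 1 x = D.c x := by
  unfold conf; simp [D.pi_one]

theorem gL_eq (a b : G) : D.gL a b = D.c a + D.c b - D.conf a b := by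
  unfold gL conf; ring

theorem gL_hyp (x y z : G) : min (D.gL x y) (D.gL y z) ≤ D.gL x z := by
  rw [gL_eq, gL_eq, gL_eq, ← D.conf_one x, ← D.conf_one y, ← D.conf_one z]
  have a1 := D.conf_ultra x y z
  have a2 := D.conf_ultra x 1 z
  have a3 := D.conf_ultra 1 x z
  have a4 := D.conf_ultra 1 z x
  have a5 := D.conf_ultra 1 x y
  have a6 := D.conf_ultra 1 y x
  have a7 := D.conf_ultra 1 y z
  have a8 := D.conf_ultra 1 z y
  have a9 := D.conf_ultra x 1 y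
  have a10 := D.conf_ultra y 1 z
  have a11 := D.conf_ultra x z y
  have a12 := D.conf_ultra y x z
  rw [D.conf_symm x 1] at *
  rw [D.conf_symm y 1] at *
  rw [D.conf_symm z x] at *
  rw [D.conf_symm z y] at *
  rw [D.conf_symm y x] at *
  generalize D.conf 1 x = X at *
  generalize D.conf 1 y = Y at *
  generalize D.conf 1 z = Z at *
  generalize D.conf x y = XY at *
  generalize D.conf y z = YZ at *
  generalize D.conf x z = XZ at *
  omega

theorem hyp_X : ∃ δ : ℝ, ∀ x y z : G,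
    min (gpr D.X x y) (gpr D.X y z) - δ ≤ gpr D.X x z := by
  refine ⟨2, fun x y z => ?_⟩
  have h0 : (min (D.gL x y : ℝ) (D.gL y z : ℝ)) ≤ (D.gL x z : ℝ) := by
    exact_mod_cast D.gL_hyp x y z
  have h1 := D.gpr_ge x z
  have h2 := D.gpr_le x y
  have h3 := D.gpr_le y z
  rcases min_le_iff.mp h0 with h | h
  · have := min_le_left (gpr D.X x y) (gpr D.X y z)
    linarith
  · have := min_le_right (gpr D.X x y) (gpr D.X y z)
    linarith

theorem c_pow_le (g : G) (hg : D.pi g = 0) (n : ℕ) : D.c (g ^ n) ≤ D.c g := by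
  induction n with
  | zero => simp [D.c_one, D.c_nonneg]
  | succ n ih =>
    rw [pow_succ']
    have := D.c_mul g (g ^ n)
    rw [hg] at this
    omega

theorem lox_pi (g : G) (hg : lox D.X g) : D.pi g ≠ 0 := by
  intro h0
  obtain ⟨c, hc, h⟩ := hg
  obtain ⟨n, hn⟩ := exists_nat_gt ((2 * (D.c g : ℝ) + 1) / c)
  have h1 := h n
  have h2 := D.wl_X_le (g ^ n)
  rw [D.pi_pow, h0] at h2
  have h3 := D.c_pow_le g h0 n
  have h4 : (wl D.X (g ^ n) : ℤ) ≤ 2 * D.c g + 1 := by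
    rw [mul_zero] at h2; linarith
  have h5 : (wl D.X (g ^ n) : ℝ) ≤ 2 * (D.c g : ℝ) + 1 := by exact_mod_cast h4
  rw [div_lt_iff₀ hc] at hn
  linarith

theorem lox_of_pi (g : G) (hg : D.pi g ≠ 0) : lox D.X g := by
  refine ⟨1, one_pos, fun n => ?_⟩
  have h1 := D.le_wl_X (g ^ n)
  have h2 := D.c_nonneg (g ^ n)
  have h3 := D.pi_le (g ^ n)
  rw [D.pi_pow] at h3 h1
  have h4 : (n : ℤ) ≤ wl D.X (g ^ n) := by
    rcases lt_or_gt_of_ne hg with h | h
    · have : (n : ℤ) * D.pi g ≤ -n := by nlinarith [Int.natCast_nonneg n]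
      omega
    · have : (n : ℤ) ≤ n * D.pi g := by nlinarith [Int.natCast_nonneg n]
      omega
  rw [one_mul]
  exact_mod_cast h4

theorem sameEnd_of_pos (g h : G) (hg : 0 < D.pi g) (hh : 0 < D.pi h) : sameEnd D.X g h := by
  intro K
  obtain ⟨N, hN⟩ := exists_nat_gt (K + 1)
  refine ⟨N, fun n m hn hm => ?_⟩
  have h1 := D.gpr_ge (g ^ n) (h ^ m)
  have h2 : (N : ℤ) ≤ D.gL (g ^ n) (h ^ m) := by
    rw [gL_eq]
    have e1 := D.conf_ultra (g ^ n) 1 (h ^ m)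
    rw [D.conf_symm _ 1, D.conf_one, D.conf_one] at e1
    have e2 := D.pi_le (g ^ n)
    have e3 := D.pi_le (h ^ m)
    rw [D.pi_pow] at e2 e3
    have e4 : (n : ℤ) ≤ n * D.pi g := by nlinarith [Int.natCast_nonneg n]
    have e5 : (m : ℤ) ≤ m * D.pi h := by nlinarith [Int.natCast_nonneg m]
    omega
  have h3 : (N : ℝ) ≤ (D.gL (g ^ n) (h ^ m) : ℝ) := by exact_mod_cast h2
  linarith

theorem pow_conj (g : G) (n : ℕ) : (D.u * g * D.u⁻¹) ^ n = D.u * g ^ n * D.u⁻¹ := conj_pow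

theorem c_u_inv : D.c D.u⁻¹ = D.c D.u := by
  rw [D.c_inv, D.pi_u]; ring

theorem not_sameEnd_inv : ¬ sameEnd D.X D.t⁻¹ (D.u * D.t * D.u⁻¹)⁻¹ := by
  intro h
  obtain ⟨N, hN⟩ := h (D.c D.u + 2)
  have h1 := hN (N + 1) (N + 1) (by omega) (by omega)
  have h2 := D.gpr_le (D.t⁻¹ ^ (N + 1)) ((D.u * D.t * D.u⁻¹)⁻¹ ^ (N + 1))
  have h3 : D.gL (D.t⁻¹ ^ (N + 1)) ((D.u * D.t * D.u⁻¹)⁻¹ ^ (N + 1)) ≤ 0 := by
    unfold gL
    rw [inv_pow, inv_pow, inv_inv, D.pow_conj]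
    have q1 : (D.u * D.t ^ (N + 1) * D.u⁻¹)⁻¹ = D.u * (D.t ^ (N + 1))⁻¹ * D.u⁻¹ := by group
    rw [q1]
    set z := D.t ^ (N + 1) * (D.u * (D.t ^ (N + 1))⁻¹ * D.u⁻¹) with hz
    have q2 : D.u = (D.t ^ (N + 1))⁻¹ * (z * (D.u * D.t ^ (N + 1))) := by rw [hz]; group
    have e1 := D.c_mul (D.t ^ (N + 1))⁻¹ (z * (D.u * D.t ^ (N + 1)))
    rw [← q2] at e1
    have e2 := D.c_mul z (D.u * D.t ^ (N + 1))
    have e3 := D.c_mul D.u (D.t ^ (N + 1))
    have e4 := D.c_mul (D.u * (D.t ^ (N + 1))⁻¹) D.u⁻¹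
    have e5 := D.c_mul D.u (D.t ^ (N + 1))⁻¹
    have e6 := D.c_t_pow (N + 1)
    have e7 := D.c_t_pow_inv (N + 1)
    have e8 : D.pi z = 0 := by
      rw [hz, D.pi_mul, D.pi_mul, D.pi_mul, D.pi_inv, D.pi_inv, D.pi_u]; ring
    have e9 : D.pi (D.t ^ (N + 1)) = N + 1 := by rw [D.pi_pow, D.pi_t]; push_cast; ring
    have e10 := D.pi_inv (D.t ^ (N + 1))
    have e11 := D.c_u_inv
    have e12 := D.c_u
    have e13 := D.pi_u
    have e14 : D.pi (D.u * (D.t ^ (N + 1))⁻¹) = -(N + 1) := by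
      rw [D.pi_mul, D.pi_inv, D.pi_u, e9]; ring
    push_cast at e6
    omega
  have h4 : (D.gL (D.t⁻¹ ^ (N + 1)) ((D.u * D.t * D.u⁻¹)⁻¹ ^ (N + 1)) : ℝ) ≤ 0 := by
    exact_mod_cast h3
  have h5 : (0 : ℝ) < D.c D.u := by exact_mod_cast D.c_u
  linarith

theorem not_sameEnd_mixed : ¬ sameEnd D.X D.t (D.u * D.t * D.u⁻¹)⁻¹ := by
  intro h
  obtain ⟨N, hN⟩ := h (D.c D.u + 2)
  have h1 := hN (N + 1) (N + 1) (by omega) (by omega)
  have h2 := D.gpr_le (D.t ^ (N + 1)) ((D.u * D.t * D.u⁻¹)⁻¹ ^ (N + 1))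
  have h3 : D.gL (D.t ^ (N + 1)) ((D.u * D.t * D.u⁻¹)⁻¹ ^ (N + 1)) ≤ D.c D.u := by
    unfold gL
    rw [inv_pow, D.pow_conj]
    have q1 : (D.u * D.t ^ (N + 1) * D.u⁻¹)⁻¹ = D.u * (D.t ^ (N + 1))⁻¹ * D.u⁻¹ := by group
    rw [q1]
    have e0 := D.c_nonneg ((D.t ^ (N + 1))⁻¹ * (D.u * (D.t ^ (N + 1))⁻¹ * D.u⁻¹))
    have e4 := D.c_mul (D.u * (D.t ^ (N + 1))⁻¹) D.u⁻¹
    have e5 := D.c_mul D.u (D.t ^ (N + 1))⁻¹
    have e6 := D.c_t_pow (N + 1)
    have e7 := D.c_t_pow_inv (N + 1)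
    have e9 : D.pi (D.t ^ (N + 1)) = N + 1 := by rw [D.pi_pow, D.pi_t]; push_cast; ring
    have e11 := D.c_u_inv
    have e12 := D.c_u
    have e13 := D.pi_u
    have e14 : D.pi (D.u * (D.t ^ (N + 1))⁻¹) = -(N + 1) := by
      rw [D.pi_mul, D.pi_inv, D.pi_u, e9]; ring
    push_cast at e6
    omega
  have h4 : (D.gL (D.t ^ (N + 1)) ((D.u * D.t * D.u⁻¹)⁻¹ ^ (N + 1)) : ℝ) ≤ D.c D.u := by
    exact_mod_cast h3
  linarith

/-- The standard generating set is quasi-parabolic. -/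
theorem QP_X : QP D.X := by
  refine ⟨D.closure_X, D.hyp_X, ?_, ?_⟩
  · refine ⟨D.t, D.u * D.t * D.u⁻¹, D.lox_of_pi _ ?_, D.lox_of_pi _ ?_, ?_⟩
    · rw [D.pi_t]; exact one_ne_zero
    · rw [D.pi_mul, D.pi_mul, D.pi_inv, D.pi_u, D.pi_t]; norm_num
    · rintro (⟨-, h⟩ | ⟨h, -⟩)
      · exact D.not_sameEnd_inv h
      · exact D.not_sameEnd_mixed h
  · intro g h hg hh
    have h1 := D.lox_pi g hg
    have h2 := D.lox_pi h hh
    have e1 := D.pi_inv g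
    have e2 := D.pi_inv h
    rcases lt_or_gt_of_ne h1 with a | a <;> rcases lt_or_gt_of_ne h2 with b | b
    · exact Or.inr (Or.inr (Or.inr (D.sameEnd_of_pos _ _ (by omega) (by omega))))
    · exact Or.inr (Or.inr (Or.inl (D.sameEnd_of_pos _ _ (by omega) (by omega))))
    · exact Or.inr (Or.inl (D.sameEnd_of_pos _ _ (by omega) (by omega)))
    · exact Or.inl (D.sameEnd_of_pos _ _ (by omega) (by omega))

end HData

end Pool.Agent.TH96.QP
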