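import Mathlib
import Pool.Agent.TH96.QPX

set_option autoImplicit false
open Pointwise

namespace Pool.Agent.TH96.QP

namespace HData

variable {G : Type} [Group G] (D : HData G)

/-- A function that increases by at most `K` along each letter is bounded by `K` times the word
length. -/
theorem le_wl_K (S : Set G) (hS : Subgroup.closure S = ⊤) (K : ℤ) (f : G → ℤ)
    (hf : ∀ g : G, ∀ x ∈ S ∪ S⁻¹, f (g * x) ≤ f g + K) (g : G) :
    f g ≤ f 1 + K * wl S g := by
  have key : ∀ n : ℕ, ∀ g ∈ (S ∪ S⁻¹) ^ n, f g ≤ f 1 + K * n := by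
    intro n
    induction n with
    | zero =>
      intro g hg
      have : g = 1 := by simpa using hg
      subst this; simp
    | succ n ih =>
      intro g hg
      rw [pow_succ] at hg
      obtain ⟨a, ha, x, hx, rfl⟩ := Set.mem_mul.mp hg
      have h1 := ih a ha
      have h2 := hf a x hx
      push_cast
      linarith
  exact key _ g (mem_pow_wl S hS g)

/-- If the word length is bounded on the kernel of `pi`, the structure is not quasi-parabolic. -/
theorem not_QP_of_bdd (Y : Set G) (R : ℕ) (hR : ∀ h, D.pi h = 0 → wl Y h ≤ R) : ¬ QP Y := by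
  rintro ⟨hY, -, ⟨g, h, hg, hh, hne⟩, -⟩
  have isl := isLen_wl Y hY
  -- loxodromic elements have nonzero height
  have loxpi : ∀ g, lox Y g → D.pi g ≠ 0 := by
    rintro g ⟨c, hc, hcn⟩ h0
    obtain ⟨n, hn⟩ := exists_nat_gt ((R : ℝ) / c)
    have h1 := hcn n
    have h2 := hR (g ^ n) (by rw [D.pi_pow, h0]; ring)
    have h3 : (wl Y (g ^ n) : ℝ) ≤ R := by exact_mod_cast h2
    rw [div_lt_iff₀ hc] at hn
    linarith
  have hgp := loxpi g hg
  have hhp := loxpi h hh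
  -- the heights of the elements of `Y` are bounded
  have hbd : ∃ B : ℕ, ∀ y ∈ Y, (D.pi y).natAbs ≤ B := by
    obtain ⟨c, hc, hcn⟩ := hg
    obtain ⟨B, hB⟩ := exists_nat_gt ((((D.pi g).natAbs : ℝ) + R) / c)
    refine ⟨B, fun y hy => ?_⟩
    have h1 : wl Y (g ^ (D.pi y)) ≤ (D.pi g).natAbs + R := by
      have e1 : g ^ (D.pi y) = (y ^ (D.pi g)) * ((y ^ (D.pi g))⁻¹ * g ^ (D.pi y)) := by group
      have e2 : D.pi ((y ^ (D.pi g))⁻¹ * g ^ (D.pi y)) = 0 := by
        rw [D.pi_mul, D.pi_inv, D.pi_zpow, D.pi_zpow]; ring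
      have e3 := isl.mul (y ^ (D.pi g)) ((y ^ (D.pi g))⁻¹ * g ^ (D.pi y))
      rw [← e1] at e3
      have e4 := hR _ e2
      have e5 := wl_zpow Y hY y (D.pi g)
      have e6 := wl_mem Y y hy
      have e7 : (D.pi g).natAbs * wl Y y ≤ (D.pi g).natAbs := by
        simpa using Nat.mul_le_mul_left (D.pi g).natAbs e6
      omega
    have h2 : wl Y (g ^ (D.pi y)) = wl Y (g ^ (D.pi y).natAbs) := by
      rcases Int.natAbs_eq (D.pi y) with e | e
      · conv_lhs => rw [e, zpow_natCast]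
      · conv_lhs => rw [e, zpow_neg, zpow_natCast, isl.inv]
    have h3 := hcn (D.pi y).natAbs
    rw [h2] at h1
    have h4 : (wl Y (g ^ (D.pi y).natAbs) : ℝ) ≤ ((D.pi g).natAbs : ℝ) + R := by exact_mod_cast h1
    have h5 : ((D.pi y).natAbs : ℝ) ≤ (((D.pi g).natAbs : ℝ) + R) / c := by
      rw [le_div_iff₀ hc]; linarith
    have h6 : ((D.pi y).natAbs : ℝ) < B := lt_of_le_of_lt h5 hB
    exact le_of_lt (by exact_mod_cast h6)
  obtain ⟨B, hB⟩ := hbd
  -- an element of `Y` of the largest height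
  have hYne : Y.Nonempty := by
    rw [Set.nonempty_iff_ne_empty]
    rintro rfl
    rw [Subgroup.closure_empty] at hY
    have : g ∈ (⊥ : Subgroup G) := by rw [hY]; trivial
    rw [Subgroup.mem_bot] at this
    exact hgp (by rw [this, D.pi_one])
  obtain ⟨y0, hy0, hmax⟩ : ∃ y0 ∈ Y, ∀ y ∈ Y, (D.pi y).natAbs ≤ (D.pi y0).natAbs := by
    have h1 : ((fun y => (D.pi y).natAbs) '' Y).Nonempty := hYne.image _
    have h2 : BddAbove ((fun y => (D.pi y).natAbs) '' Y) := by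
      refine ⟨B, ?_⟩
      rintro _ ⟨y, hy, rfl⟩
      exact hB y hy
    obtain ⟨y0, hy0, e⟩ := Nat.sSup_mem h1 h2
    refine ⟨y0, hy0, fun y hy => ?_⟩
    rw [show (D.pi y0).natAbs = sSup ((fun y => (D.pi y).natAbs) '' Y) from e]
    exact le_csSup h2 ⟨y, hy, rfl⟩
  set K : ℤ := |D.pi y0| with hK
  have hmax' : ∀ y ∈ Y, |D.pi y| ≤ K := by
    intro y hy
    have := hmax y hy
    rw [hK, Int.abs_eq_natAbs, Int.abs_eq_natAbs]
    exact_mod_cast this
  have hlow : ∀ g', |D.pi g'| ≤ K * wl Y g' := by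
    intro g'
    have := le_wl_K Y hY K (fun g => |D.pi g|) ?_ g'
    · simpa [D.pi_one] using this
    · intro a x hx
      have e1 : |D.pi x| ≤ K := by
        rcases hx with hx | hx
        · exact hmax' x hx
        · have := hmax' _ hx
          rwa [D.pi_inv, abs_neg] at this
      show |D.pi (a * x)| ≤ |D.pi a| + K
      rw [D.pi_mul]
      exact (abs_add_le _ _).trans (by linarith)
  have hKpos : 0 < K := by
    rcases (abs_nonneg (D.pi y0)).lt_or_eq with h0 | h0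
    · exact h0
    · exfalso
      have := hlow g
      rw [hK, ← h0, zero_mul] at this
      exact hgp (abs_eq_zero.mp (le_antisymm this (abs_nonneg _)))
  have hy0ne : D.pi y0 ≠ 0 := by
    intro h0
    rw [hK, h0, abs_zero] at hKpos
    exact lt_irrefl _ hKpos
  obtain ⟨C, hC⟩ : ∃ C : ℤ, ∀ g', K * wl Y g' ≤ |D.pi g'| + C := by
    refine ⟨K + K * (K * wl Y D.t + R), fun g' => ?_⟩
    set q := D.pi g' / D.pi y0 with hq
    set r := D.pi g' % D.pi y0 with hr
    have hr0 : 0 ≤ r := Int.emod_nonneg _ hy0ne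
    have hrK : r < K := Int.emod_lt_abs _ hy0ne
    have hdiv : D.pi y0 * q + r = D.pi g' := Int.mul_ediv_add_emod _ _
    have e0 : D.pi ((y0 ^ q * D.t ^ r)⁻¹ * g') = 0 := by
      rw [D.pi_mul, D.pi_inv, D.pi_mul, D.pi_zpow, D.pi_zpow, D.pi_t]
      linarith
    have e1 := hR _ e0
    have e2 := isl.mul (y0 ^ q * D.t ^ r) ((y0 ^ q * D.t ^ r)⁻¹ * g')
    rw [mul_inv_cancel_left] at e2
    have e3 := isl.mul (y0 ^ q) (D.t ^ r)
    have e4 := wl_zpow Y hY y0 q
    have e5 := wl_zpow Y hY D.t r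
    have e6 := wl_mem Y y0 hy0
    have e7 : q.natAbs * wl Y y0 ≤ q.natAbs := by
      simpa using Nat.mul_le_mul_left q.natAbs e6
    have e8 : (wl Y g' : ℤ) ≤ |q| + r * wl Y D.t + R := by
      have e9 : wl Y g' ≤ q.natAbs + r.natAbs * wl Y D.t + R := by omega
      have e10 : (q.natAbs : ℤ) = |q| := Int.natCast_natAbs q
      have e11 : (r.natAbs : ℤ) = r := by rw [Int.natCast_natAbs, abs_of_nonneg hr0]
      calc (wl Y g' : ℤ) ≤ ((q.natAbs + r.natAbs * wl Y D.t + R : ℕ) : ℤ) := by exact_mod_cast e9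
        _ = |q| + r * wl Y D.t + R := by push_cast [e10, e11]; rfl
    have e12 : K * |q| ≤ |D.pi g'| + K := by
      have : K * |q| = |D.pi g' - r| := by
        rw [hK, ← abs_mul, ← hdiv]; congr 1; ring
      rw [this]
      have h9 : |D.pi g' - r| ≤ |D.pi g'| + |r| := abs_sub _ _
      rw [abs_of_nonneg hr0] at h9
      linarith
    have e13 : r * (wl Y D.t : ℤ) ≤ K * wl Y D.t := by
      apply mul_le_mul_of_nonneg_right (le_of_lt hrK) (Int.natCast_nonneg _)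
    calc K * (wl Y g' : ℤ) ≤ K * (|q| + r * wl Y D.t + R) :=
          mul_le_mul_of_nonneg_left e8 hKpos.le
      _ = K * |q| + K * (r * wl Y D.t + R) := by ring
      _ ≤ (|D.pi g'| + K) + K * (K * wl Y D.t + R) := by
          have : K * (r * (wl Y D.t : ℤ) + R) ≤ K * (K * wl Y D.t + R) :=
            mul_le_mul_of_nonneg_left (by linarith) hKpos.le
          linarith
      _ = _ := by ring
  -- elements of positive height have a common end
  have hpos : ∀ a b, 0 < D.pi a → 0 < D.pi b → sameEnd Y a b := by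
    intro a b ha hb L
    obtain ⟨N, hN⟩ := exists_nat_gt ((2 * (K : ℝ) * |L| + |(C : ℝ)|) / 2)
    refine ⟨N, fun n m hn hm => ?_⟩
    have e1 := hlow (a ^ n)
    have e2 := hlow (b ^ m)
    have e3 := hC ((a ^ n)⁻¹ * b ^ m)
    rw [D.pi_mul, D.pi_inv, D.pi_pow, D.pi_pow] at e3
    rw [D.pi_pow] at e1 e2
    have f1 : (N : ℤ) ≤ n * D.pi a := by
      have : (n : ℤ) ≤ n * D.pi a := by nlinarith [Int.natCast_nonneg n]
      omega
    have f2 : (N : ℤ) ≤ m * D.pi b := by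
      have : (m : ℤ) ≤ m * D.pi b := by nlinarith [Int.natCast_nonneg m]
      omega
    have f3 : 2 * (N : ℤ) - C ≤ K * ((wl Y (a ^ n) : ℤ) + wl Y (b ^ m) - wl Y ((a ^ n)⁻¹ * b ^ m)) := by
      have : K * ((wl Y (a ^ n) : ℤ) + wl Y (b ^ m) - wl Y ((a ^ n)⁻¹ * b ^ m))
        = K * wl Y (a ^ n) + K * wl Y (b ^ m) - K * wl Y ((a ^ n)⁻¹ * b ^ m) := by ring
      rw [this]
      generalize K * (wl Y (a ^ n) : ℤ) = P at *
      generalize K * (wl Y (b ^ m) : ℤ) = Q at *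
      generalize K * (wl Y ((a ^ n)⁻¹ * b ^ m) : ℤ) = W at *
      generalize (n : ℤ) * D.pi a = s at *
      generalize (m : ℤ) * D.pi b = s' at *
      rcases abs_cases s with ⟨q1, q1'⟩ | ⟨q1, q1'⟩ <;>
      rcases abs_cases s' with ⟨q2, q2'⟩ | ⟨q2, q2'⟩ <;>
      rcases abs_cases (-s + s') with ⟨q3, q3'⟩ | ⟨q3, q3'⟩ <;>
      rw [q1] at e1 <;> rw [q2] at e2 <;> rw [q3] at e3 <;> omega
    have f4 : 2 * (N : ℝ) - C ≤ K * ((wl Y (a ^ n) : ℝ) + wl Y (b ^ m) - wl Y ((a ^ n)⁻¹ * b ^ m)) := by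
      exact_mod_cast f3
    have hKr : (0 : ℝ) < K := by exact_mod_cast hKpos
    unfold gpr
    have g1 : L ≤ |L| := le_abs_self L
    have g2 : (C : ℝ) ≤ |(C : ℝ)| := le_abs_self _
    have g3 : (K : ℝ) * (2 * L) ≤ K * ((wl Y (a ^ n) : ℝ) + wl Y (b ^ m) - wl Y ((a ^ n)⁻¹ * b ^ m)) := by
      have g4 : (K : ℝ) * L ≤ K * |L| := mul_le_mul_of_nonneg_left g1 hKr.le
      linarith
    have g5 := le_of_mul_le_mul_left g3 hKr
    linarith
  apply hne
  have e1 := D.pi_inv g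
  have e2 := D.pi_inv h
  have key : ∀ a b, 0 < D.pi a → 0 < D.pi b → sameEnd Y a⁻¹ b⁻¹ := by
    intro a b ha hb L
    -- replace `pi` by its negative
    obtain ⟨N, hN⟩ := exists_nat_gt ((2 * (K : ℝ) * |L| + |(C : ℝ)|) / 2)
    refine ⟨N, fun n m hn hm => ?_⟩
    have e1 := hlow (a⁻¹ ^ n)
    have e2 := hlow (b⁻¹ ^ m)
    have e3 := hC ((a⁻¹ ^ n)⁻¹ * b⁻¹ ^ m)
    rw [D.pi_mul, D.pi_inv, D.pi_pow, D.pi_pow, D.pi_inv, D.pi_inv] at e3
    rw [D.pi_pow, D.pi_inv] at e1 e2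
    have f1 : (N : ℤ) ≤ n * D.pi a := by
      have : (n : ℤ) ≤ n * D.pi a := by nlinarith [Int.natCast_nonneg n]
      omega
    have f2 : (N : ℤ) ≤ m * D.pi b := by
      have : (m : ℤ) ≤ m * D.pi b := by nlinarith [Int.natCast_nonneg m]
      omega
    have f3 : 2 * (N : ℤ) - C ≤ K * ((wl Y (a⁻¹ ^ n) : ℤ) + wl Y (b⁻¹ ^ m) - wl Y ((a⁻¹ ^ n)⁻¹ * b⁻¹ ^ m)) := by
      have : K * ((wl Y (a⁻¹ ^ n) : ℤ) + wl Y (b⁻¹ ^ m) - wl Y ((a⁻¹ ^ n)⁻¹ * b⁻¹ ^ m))
        = K * wl Y (a⁻¹ ^ n) + K * wl Y (b⁻¹ ^ m) - K * wl Y ((a⁻¹ ^ n)⁻¹ * b⁻¹ ^ m) := by ring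
      rw [this]
      rw [mul_neg] at e1 e2
      rw [mul_neg, mul_neg] at e3
      generalize K * (wl Y (a⁻¹ ^ n) : ℤ) = P at *
      generalize K * (wl Y (b⁻¹ ^ m) : ℤ) = Q at *
      generalize K * (wl Y ((a⁻¹ ^ n)⁻¹ * b⁻¹ ^ m) : ℤ) = W at *
      generalize (n : ℤ) * D.pi a = s at *
      generalize (m : ℤ) * D.pi b = s' at *
      rw [abs_neg] at e1 e2
      rcases abs_cases s with ⟨q1, q1'⟩ | ⟨q1, q1'⟩ <;>
      rcases abs_cases s' with ⟨q2, q2'⟩ | ⟨q2, q2'⟩ <;>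
      rcases abs_cases (- -s + -s') with ⟨q3, q3'⟩ | ⟨q3, q3'⟩ <;>
      rw [q1] at e1 <;> rw [q2] at e2 <;> rw [q3] at e3 <;> omega
    have f4 : 2 * (N : ℝ) - C ≤ K * ((wl Y (a⁻¹ ^ n) : ℝ) + wl Y (b⁻¹ ^ m) - wl Y ((a⁻¹ ^ n)⁻¹ * b⁻¹ ^ m)) := by
      exact_mod_cast f3
    have hKr : (0 : ℝ) < K := by exact_mod_cast hKpos
    unfold gpr
    have g1 : L ≤ |L| := le_abs_self L
    have g2 : (C : ℝ) ≤ |(C : ℝ)| := le_abs_self _
    have g3 : (K : ℝ) * (2 * L) ≤ K * ((wl Y (a⁻¹ ^ n) : ℝ) + wl Y (b⁻¹ ^ m) - wl Y ((a⁻¹ ^ n)⁻¹ * b⁻¹ ^ m)) := by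
      have g4 : (K : ℝ) * L ≤ K * |L| := mul_le_mul_of_nonneg_left g1 hKr.le
      linarith
    have g5 := le_of_mul_le_mul_left g3 hKr
    linarith
  rcases lt_or_gt_of_ne hgp with a | a <;> rcases lt_or_gt_of_ne hhp with b | b
  · left
    refine ⟨?_, hpos _ _ (by omega) (by omega)⟩
    have := key g⁻¹ h⁻¹ (by omega) (by omega)
    rwa [inv_inv, inv_inv] at this
  · right
    refine ⟨?_, hpos _ _ (by omega) (by omega)⟩
    have := key g⁻¹ h (by omega) (by omega)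
    rwa [inv_inv] at this
  · right
    refine ⟨hpos _ _ (by omega) (by omega), ?_⟩
    have := key g h⁻¹ (by omega) (by omega)
    rwa [inv_inv] at this
  · left
    exact ⟨hpos _ _ (by omega) (by omega), key g h (by omega) (by omega)⟩

/-- The three properties of the group used to classify all generating sets. -/
structure Rigid : Prop where
  bdd : ∀ l : G → ℕ, IsLen l → ∃ M, ∀ h, D.pi h = 0 → D.c h = 0 → l h ≤ M
  gen : ∃ A : ℕ, ∀ l : G → ℕ, IsLen l → ∀ M, (∀ h, D.pi h = 0 → D.c h = 0 → l h ≤ M) →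
     ∀ q, D.pi q = 0 → 0 < D.c q → ∀ h, D.pi h = 0 → D.c h ≤ D.c q → l h ≤ A * M + A * l q
  stab : ∀ y, 0 < D.pi y → ∃ h, D.pi h = 0 ∧ D.c h = 0 ∧ D.pi y ≤ D.c (y * h * y⁻¹)

theorem unique (hD : D.Rigid) (Y : Set G) (hQ : QP Y) :
    (∃ C : ℕ, ∀ y ∈ Y, wl D.X y ≤ C) ∧ (∃ C : ℕ, ∀ x ∈ D.X, wl Y x ≤ C) := by
  have hY := hQ.1
  have isl := isLen_wl Y hY
  obtain ⟨M, hM⟩ := hD.bdd (wl Y) isl
  obtain ⟨A, hA⟩ := hD.gen
  refine ⟨?_, ?_⟩
  · by_cases hcase : ∃ r : ℕ, ∀ n : ℤ, ∃ q, D.pi q = 0 ∧ wl Y q ≤ r ∧ n < D.c q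
    · exfalso
      obtain ⟨r, hr⟩ := hcase
      refine D.not_QP_of_bdd Y (A * M + A * r) (fun h hh => ?_) hQ
      obtain ⟨q, hq1, hq2, hq3⟩ := hr (D.c h)
      have := hA (wl Y) isl M hM q hq1 (lt_of_le_of_lt (D.c_nonneg h) hq3) h hh hq3.le
      nlinarith
    · push Not at hcase
      obtain ⟨n1, hn1⟩ := hcase (M + 2)
      -- the height of the letters is at most `n1`
      have hup : ∀ y, wl Y y ≤ 1 → D.pi y ≤ max n1 0 := by
        intro y hy
        by_cases hp : 0 < D.pi y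
        · obtain ⟨h, h1, h2, h3⟩ := hD.stab y hp
          have e1 := isl.mul (y * h) y⁻¹
          have e2 := isl.mul y h
          rw [isl.inv] at e1
          have e3 := hM h h1 h2
          have e4 := hn1 (y * h * y⁻¹) (by rw [D.pi_mul, D.pi_mul, D.pi_inv, h1]; ring) (by omega)
          omega
        · omega
      have habs : ∀ y ∈ Y, |D.pi y| ≤ max n1 0 := by
        intro y hy
        have e1 := hup y (wl_mem Y y hy)
        have e2 := hup y⁻¹ (by rw [isl.inv]; exact wl_mem Y y hy)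
        rw [D.pi_inv] at e2
        rw [abs_le]
        constructor <;> linarith
      set K : ℕ := (max n1 0).toNat with hK
      obtain ⟨n2, hn2⟩ := hcase (1 + K * wl Y D.t)
      refine ⟨(2 * (max n2 0 + K) + K + 1).toNat, fun y hy => ?_⟩
      have f1 := habs y hy
      have f2 : (D.pi y).natAbs ≤ K := by
        rw [Int.abs_eq_natAbs] at f1
        omega
      have e1 : D.pi (y * D.t ^ (- D.pi y)) = 0 := by
        rw [D.pi_mul, D.pi_zpow, D.pi_t]; ring
      have e2 : wl Y (y * D.t ^ (- D.pi y)) ≤ 1 + K * wl Y D.t := by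
        have e3 := isl.mul y (D.t ^ (- D.pi y))
        have e4 := wl_zpow Y hY D.t (- D.pi y)
        have e5 := wl_mem Y y hy
        rw [Int.natAbs_neg] at e4
        have e6 : (D.pi y).natAbs * wl Y D.t ≤ K * wl Y D.t := Nat.mul_le_mul_right _ f2
        omega
      have e7 := hn2 _ e1 e2
      have e8 := D.wl_X_le y
      have e9 : D.c y ≤ max n2 0 + K := by
        have e10 := D.c_mul (y * D.t ^ (- D.pi y)) (D.t ^ (D.pi y))
        have e11 : y * D.t ^ (- D.pi y) * D.t ^ (D.pi y) = y := by group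
        rw [e11, e1] at e10
        have e12 : D.c (D.t ^ (D.pi y)) ≤ K := by
          rcases Int.natAbs_eq (D.pi y) with e | e
          · rw [e, zpow_natCast, D.c_t_pow]; omega
          · rw [e, zpow_neg, zpow_natCast, D.c_t_pow_inv]; omega
        omega
      omega
  · refine ⟨M + wl Y D.t, fun x hx => ?_⟩
    rcases hx with hx | hx
    · have := hM x hx.1 hx.2
      omega
    · rw [Set.mem_singleton_iff] at hx
      rw [hx]
      omega

end HData

end Pool.Agent.TH96.QP
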