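import Mathlib
import Pool.Agent.TH96.QPS
import Pool.Agent.TH96.QPY

set_option autoImplicit false

namespace Pool.Agent.TH96.QP

/-- The group of affine maps `x ↦ b + 2 ^ (-k) • U x`, with `U` in `OO`. -/
@[ext]
structure GG where
  b : Lam
  U : OO
  k : ℤ

namespace GG

noncomputable instance : Mul GG :=
  ⟨fun g h => ⟨g.b + (2 : ℚ) ^ (-g.k) • (g.U : Lam ≃ₗ[ℚ] Lam) h.b, g.U * h.U, g.k + h.k⟩⟩

noncomputable instance : One GG := ⟨⟨0, 1, 0⟩⟩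

noncomputable instance : Inv GG :=
  ⟨fun g => ⟨-((2 : ℚ) ^ g.k • ((g.U⁻¹ : OO) : Lam ≃ₗ[ℚ] Lam) g.b), g.U⁻¹, -g.k⟩⟩

theorem mul_b (g h : GG) : (g * h).b = g.b + (2 : ℚ) ^ (-g.k) • (g.U : Lam ≃ₗ[ℚ] Lam) h.b := rfl
theorem mul_U (g h : GG) : (g * h).U = g.U * h.U := rfl
theorem mul_k (g h : GG) : (g * h).k = g.k + h.k := rfl
theorem one_b : (1 : GG).b = 0 := rfl
theorem one_U : (1 : GG).U = 1 := rfl
theorem one_k : (1 : GG).k = 0 := rfl
theorem inv_b (g : GG) : (g⁻¹).b = -((2 : ℚ) ^ g.k • ((g.U⁻¹ : OO) : Lam ≃ₗ[ℚ] Lam) g.b) := rfl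
theorem inv_U (g : GG) : (g⁻¹).U = g.U⁻¹ := rfl
theorem inv_k (g : GG) : (g⁻¹).k = -g.k := rfl

noncomputable instance : Group GG :=
  Group.ofLeftAxioms
    (by
      intro g h l
      apply GG.ext
      · rw [mul_b, mul_b, mul_b, mul_b, mul_k, mul_U, map_add, smul_add, map_smul, smul_smul,
          ← zpow_add₀ (by norm_num), add_assoc, Subgroup.coe_mul, LinearEquiv.mul_apply, neg_add]
      · rw [mul_U, mul_U, mul_U, mul_U, mul_assoc]
      · rw [mul_k, mul_k, mul_k, mul_k, add_assoc])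
    (by
      intro g
      apply GG.ext
      · rw [mul_b, one_b, one_k, one_U, neg_zero, zpow_zero, one_smul, zero_add]; rfl
      · rw [mul_U, one_U, one_mul]
      · rw [mul_k, one_k, zero_add])
    (by
      intro g
      apply GG.ext
      · rw [mul_b, inv_b, inv_k, inv_U, neg_neg, one_b, neg_add_cancel]
      · rw [mul_U, inv_U, one_U, inv_mul_cancel]
      · rw [mul_k, inv_k, one_k, neg_add_cancel])

/-- the linear part -/
noncomputable def io (U : OO) : GG := ⟨0, U, 0⟩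

/-- translations -/
noncomputable def tr (b : Lam) : GG := ⟨b, 1, 0⟩

theorem io_mul (U V : OO) : io (U * V) = io U * io V := by
  apply GG.ext
  · rw [mul_b]; show (0 : Lam) = 0 + _ • (U : Lam ≃ₗ[ℚ] Lam) 0
    rw [map_zero, smul_zero, zero_add]
  · rfl
  · rfl

noncomputable def ioHom : OO →* GG := MonoidHom.mk' io io_mul

end GG

open GG

/-- the height of a vector -/
noncomputable def ht (x : Lam) : ℕ := sInf {n : ℕ | InL n x}

theorem InL_ht (x : Lam) : InL (ht x) x := Nat.sInf_mem (s := {n : ℕ | InL n x}) (exists_InL x)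

theorem ht_le (x : Lam) (n : ℤ) (hn : 0 ≤ n) (h : InL n x) : (ht x : ℤ) ≤ n := by
  obtain ⟨m, rfl⟩ := Int.eq_ofNat_of_zero_le hn
  exact_mod_cast Nat.sInf_le (s := {n : ℕ | InL n x}) h

theorem c_mul_aux (g h : GG) : max ((ht (g * h).b : ℕ) : ℤ) (g * h).k ≤
    max (max (ht g.b : ℤ) g.k) (g.k + max (ht h.b : ℤ) h.k) := by
  apply max_le
  · apply ht_le
    · have := Int.natCast_nonneg (ht g.b)
      omega
    · rw [mul_b]
      apply InL.add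
      · exact (InL_ht g.b).mono (by omega)
      · have h1 := (OO.inL g.U.2 (InL_ht h.b)).smul_zpow g.k
        exact h1.mono (by omega)
  · rw [mul_k]; omega

theorem c_inv_aux (g : GG) : max ((ht (g⁻¹).b : ℕ) : ℤ) (g⁻¹).k ≤ max (ht g.b : ℤ) g.k - g.k := by
  apply max_le
  · apply ht_le
    · omega
    · rw [inv_b]
      apply InL.neg
      have h1 := (OO.inL (g.U⁻¹).2 (InL_ht g.b)).smul_zpow (-g.k)
      rw [neg_neg] at h1
      exact h1.mono (by omega)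
  · rw [inv_k]
    have := Int.natCast_nonneg (ht g.b)
    omega

theorem ht_smul_ee (k : ℕ) (c : ℝ) : ht ((2 : ℚ) ^ (-(k : ℤ)) • ee c) = k := by
  apply le_antisymm
  · have h1 := (InL.ee c).smul_zpow (k : ℤ)
    have := ht_le _ (0 + (k : ℤ)) (by omega) h1
    omega
  · by_contra hlt
    push Not at hlt
    have h1 := InL_ht ((2 : ℚ) ^ (-(k : ℤ)) • ee c) c
    rw [Finsupp.smul_apply, Finsupp.single_eq_same, smul_eq_mul, mul_one, norm_two_zpow,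
      neg_neg] at h1
    have h2 := (zpow_le_zpow_iff_right₀ (by norm_num : (1 : ℚ) < 2)).mp h1
    omega

noncomputable def DG : HData GG where
  pi g := g.k
  c g := max (ht g.b : ℤ) g.k
  t := ⟨0, 1, 1⟩
  u := ⟨(2 : ℚ) ^ (-((1 : ℕ) : ℤ)) • ee 0, 1, 0⟩
  pi_mul _ _ := rfl
  c_nonneg g := by
    have := Int.natCast_nonneg (ht g.b)
    omega
  pi_le g := le_max_right _ _
  c_mul := c_mul_aux
  c_inv g := by
    apply le_antisymm (c_inv_aux g)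
    have := c_inv_aux g⁻¹
    rw [inv_inv, inv_k] at this
    rw [inv_k]
    linarith
  c_one := by
    have h1 : ht (0 : Lam) = 0 := by
      have := ht_le 0 0 le_rfl (InL.zero 0)
      omega
    rw [one_b, one_k, h1]; rfl
  pi_t := rfl
  c_t := by
    have h1 : ht (0 : Lam) = 0 := by
      have := ht_le 0 0 le_rfl (InL.zero 0)
      omega
    show max ((ht (0 : Lam) : ℕ) : ℤ) 1 = 1
    rw [h1]; rfl
  pi_u := rfl
  c_u := by
    show 0 < max ((ht ((2 : ℚ) ^ (-((1 : ℕ) : ℤ)) • ee 0) : ℕ) : ℤ) 0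
    rw [ht_smul_ee]; norm_num

theorem IsLen.pow {G : Type} [Group G] {l : G → ℕ} (h : IsLen l) (g : G) (n : ℕ) :
    l (g ^ n) ≤ n * l g + l 1 := by
  induction n with
  | zero => simp
  | succ n ih =>
    rw [pow_succ]
    have := h.mul (g ^ n) g
    nlinarith

/-- Every length function is bounded on the linear part. -/
theorem bdd_io (l : GG → ℕ) (hl : IsLen l) : ∃ M, ∀ U : OO, l (io U) ≤ M := by
  by_contra hcon
  push Not at hcon
  choose U hU using fun n : ℕ => hcon (n * n)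
  obtain ⟨B1, hB1, B2, hB2, F, hF, hid⟩ := swindle (fun n => (U n : Lam ≃ₗ[ℚ] Lam)) (fun n => (U n).2)
  set b1 : OO := ⟨B1, hB1⟩
  set b2 : OO := ⟨B2, hB2⟩
  set F' : OO := ⟨F, hF⟩
  have hid' : ∀ n, U n = (b2⁻¹ ^ n * F' * b2 ^ n) * b1 * (b2⁻¹ ^ n * F' * b2 ^ n)⁻¹ * b1⁻¹ := by
    intro n
    apply Subtype.ext
    rw [hid n]
    rfl
  set W := 2 * (l (io b2) + l (io b2)) with hW
  set V := 2 * (l 1 + l (io F') + l 1) + 2 * l (io b1) with hV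
  have key : ∀ n, l (io (U n)) ≤ n * W + V := by
    intro n
    have e0 : io (U n) = (io b2⁻¹ ^ n * io F' * io b2 ^ n) * io b1 *
        (io b2⁻¹ ^ n * io F' * io b2 ^ n)⁻¹ * (io b1)⁻¹ := by
      show ioHom (U n) = (ioHom b2⁻¹ ^ n * ioHom F' * ioHom b2 ^ n) * ioHom b1 *
        (ioHom b2⁻¹ ^ n * ioHom F' * ioHom b2 ^ n)⁻¹ * (ioHom b1)⁻¹
      rw [hid' n]
      simp only [map_mul, map_pow, map_inv]
    have e1 := hl.mul ((io b2⁻¹ ^ n * io F' * io b2 ^ n) * io b1 *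
        (io b2⁻¹ ^ n * io F' * io b2 ^ n)⁻¹) (io b1)⁻¹
    have e2 := hl.mul ((io b2⁻¹ ^ n * io F' * io b2 ^ n) * io b1)
        (io b2⁻¹ ^ n * io F' * io b2 ^ n)⁻¹
    have e3 := hl.mul (io b2⁻¹ ^ n * io F' * io b2 ^ n) (io b1)
    have e4 := hl.mul (io b2⁻¹ ^ n * io F') (io b2 ^ n)
    have e5 := hl.mul (io b2⁻¹ ^ n) (io F')
    have e6 := hl.pow (io b2⁻¹) n
    have e7 := hl.pow (io b2) n
    have e8 : l (io b2⁻¹) = l (io b2) := by
      have : io b2⁻¹ = (io b2)⁻¹ := map_inv ioHom b2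
      rw [this, hl.inv]
    rw [hl.inv] at e1 e2
    rw [e8] at e6
    rw [e0]
    nlinarith
  have h1 := key (W + V + 1)
  have h2 := hU (W + V + 1)
  have h3 : (W + V + 1) * (W + V + 1) < (W + V + 1) * W + V := lt_of_lt_of_le h2 h1
  nlinarith

theorem decomp_tr (b : Lam) (U : OO) : (⟨b, U, 0⟩ : GG) = tr b * io U := by
  apply GG.ext
  · rw [mul_b]
    show b = b + _ • (1 : Lam ≃ₗ[ℚ] Lam) 0
    rw [map_zero, smul_zero, add_zero]
  · rw [mul_U]; show U = 1 * U; rw [one_mul]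
  · rfl

theorem conj_tr (b : Lam) (U : OO) : tr ((U : Lam ≃ₗ[ℚ] Lam) b) = io U * tr b * (io U)⁻¹ := by
  rw [eq_mul_inv_iff_mul_eq]
  apply GG.ext
  · rw [mul_b, mul_b]
    show (U : Lam ≃ₗ[ℚ] Lam) b + (2 : ℚ) ^ (-(0 : ℤ)) • (1 : Lam ≃ₗ[ℚ] Lam) 0 =
      0 + (2 : ℚ) ^ (-(0 : ℤ)) • (U : Lam ≃ₗ[ℚ] Lam) b
    simp
  · rw [mul_U, mul_U]; show 1 * U = U * 1; rw [one_mul, mul_one]
  · rfl

theorem tr_sub (a b : Lam) : tr (a - b) = tr a * (tr b)⁻¹ := by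
  rw [eq_mul_inv_iff_mul_eq]
  apply GG.ext
  · rw [mul_b]
    show a - b + (2 : ℚ) ^ (-(0 : ℤ)) • (1 : Lam ≃ₗ[ℚ] Lam) b = a
    rw [neg_zero, zpow_zero, one_smul]
    show a - b + b = a
    abel
  · rw [mul_U]; show (1 : OO) * 1 = 1; rw [one_mul]
  · rfl

/-- Length of a translation in the ball. -/
theorem len_tr (l : GG → ℕ) (hl : IsLen l) (M : ℕ) (hM : ∀ U : OO, l (io U) ≤ M) (n : ℤ)
    (b w : Lam) (hb : InL n b) (hb' : ¬ InL (n - 1) b) (hw : InL n w) :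
    l (tr w) ≤ 4 * M + 2 * l (tr b) := by
  obtain ⟨U, hU, V, hV, rfl⟩ := ball_cover n b w hb hb' hw
  have e0 : tr (U b - V b) = (io ⟨U, hU⟩ * tr b * (io ⟨U, hU⟩)⁻¹) *
      (io ⟨V, hV⟩ * tr b * (io ⟨V, hV⟩)⁻¹)⁻¹ := by
    rw [← conj_tr, ← conj_tr, ← tr_sub]
  have e1 := hl.mul (io ⟨U, hU⟩ * tr b * (io ⟨U, hU⟩)⁻¹) (io ⟨V, hV⟩ * tr b * (io ⟨V, hV⟩)⁻¹)⁻¹
  have e2 := hl.mul (io ⟨U, hU⟩ * tr b) (io ⟨U, hU⟩)⁻¹
  have e3 := hl.mul (io ⟨U, hU⟩) (tr b)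
  have e4 := hl.mul (io ⟨V, hV⟩ * tr b) (io ⟨V, hV⟩)⁻¹
  have e5 := hl.mul (io ⟨V, hV⟩) (tr b)
  rw [hl.inv] at e1 e2 e4
  have e6 := hM ⟨U, hU⟩
  have e7 := hM ⟨V, hV⟩
  rw [e0]
  omega

theorem rigid_DG : DG.Rigid := by
  refine ⟨?_, ?_, ?_⟩
  · intro l hl
    obtain ⟨M, hM⟩ := bdd_io l hl
    refine ⟨(4 * M + 2 * l (tr (ee 0))) + M, ?_⟩
    rintro ⟨b, U, k⟩ hk hc
    change k = 0 at hk
    change max ((ht b : ℕ) : ℤ) k = 0 at hc
    subst hk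
    have hb : InL 0 b := (InL_ht b).mono (by omega)
    have h0 : ¬ InL (0 - 1) (ee 0) := by
      intro h
      have := h 0
      rw [Finsupp.single_eq_same, padicNorm.one] at this
      norm_num at this
    have e1 := len_tr l hl M hM 0 (ee 0) b (InL.ee 0) h0 hb
    rw [decomp_tr]
    have e2 := hl.mul (tr b) (io U)
    have e3 := hM U
    omega
  · refine ⟨7, ?_⟩
    intro l hl M hM' ⟨b, U, k⟩ hk hc ⟨w, V, k'⟩ hk' hc'
    change k = 0 at hk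
    change k' = 0 at hk'
    subst hk
    subst hk'
    change 0 < max ((ht b : ℕ) : ℤ) 0 at hc
    change max ((ht w : ℕ) : ℤ) 0 ≤ max ((ht b : ℕ) : ℤ) 0 at hc'
    have hM : ∀ U : OO, l (io U) ≤ M := by
      intro U
      apply hM'
      · rfl
      · show max ((ht (0 : Lam) : ℕ) : ℤ) 0 = 0
        have h1 : ht (0 : Lam) = 0 := by
          have := ht_le 0 0 le_rfl (InL.zero 0)
          omega
        rw [h1]; rfl
    have hb' : ¬ InL ((ht b : ℤ) - 1) b := by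
      intro h
      have := ht_le b _ (by omega) h
      omega
    have hw : InL (ht b) w := (InL_ht w).mono (by omega)
    have e1 := len_tr l hl M hM (ht b) b w (InL_ht b) hb' hw
    have e2 : tr b = ⟨b, U, 0⟩ * (io U)⁻¹ := by
      rw [eq_mul_inv_iff_mul_eq, ← decomp_tr]
    have e3 := hl.mul (⟨b, U, 0⟩ : GG) (io U)⁻¹
    rw [← e2, hl.inv] at e3
    have e4 := hM U
    have e5 := hM V
    have e6 := hl.mul (tr w) (io V)
    rw [decomp_tr w V]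
    omega
  · rintro ⟨b, U, k⟩ hk
    change 0 < k at hk
    obtain ⟨n, hn⟩ := Int.eq_ofNat_of_zero_le hk.le
    refine ⟨tr (((U⁻¹ : OO) : Lam ≃ₗ[ℚ] Lam) (ee 0)), rfl, ?_, ?_⟩
    · show max ((ht (((U⁻¹ : OO) : Lam ≃ₗ[ℚ] Lam) (ee 0)) : ℕ) : ℤ) 0 = 0
      have h1 := ht_le _ 0 le_rfl (OO.inL (U⁻¹).2 (InL.ee 0))
      omega
    · show k ≤ max ((ht ((⟨b, U, k⟩ : GG) * tr (((U⁻¹ : OO) : Lam ≃ₗ[ℚ] Lam) (ee 0)) *
        (⟨b, U, k⟩ : GG)⁻¹).b : ℕ) : ℤ) _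
      have e1 : ((⟨b, U, k⟩ : GG) * tr (((U⁻¹ : OO) : Lam ≃ₗ[ℚ] Lam) (ee 0)) *
        (⟨b, U, k⟩ : GG)⁻¹).b = (2 : ℚ) ^ (-(n : ℤ)) • ee 0 := by
        have e2 : (⟨b, U, k⟩ : GG) * tr (((U⁻¹ : OO) : Lam ≃ₗ[ℚ] Lam) (ee 0)) =
          tr ((2 : ℚ) ^ (-(n : ℤ)) • ee 0) * (⟨b, U, k⟩ : GG) := by
          apply GG.ext
          · rw [mul_b, mul_b]
            show b + (2 : ℚ) ^ (-k) • (U : Lam ≃ₗ[ℚ] Lam) (((U⁻¹ : OO) : Lam ≃ₗ[ℚ] Lam) (ee 0)) =
              (2 : ℚ) ^ (-(n : ℤ)) • ee 0 + (2 : ℚ) ^ (-(0 : ℤ)) • (1 : Lam ≃ₗ[ℚ] Lam) b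
            rw [← LinearEquiv.mul_apply, ← Subgroup.coe_mul, mul_inv_cancel, hn]
            simp [add_comm]
          · rw [mul_U, mul_U]; show U * 1 = 1 * U; rw [one_mul, mul_one]
          · rw [mul_k, mul_k]; show k + 0 = 0 + k; ring
        rw [e2, mul_inv_cancel_right]
        rfl
      rw [e1, ht_smul_ee]
      rw [hn]
      exact le_max_left _ _

end Pool.Agent.TH96.QP
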